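import Pool.Agent.H410.Space

set_option autoImplicit false
set_option linter.unusedSectionVars false

namespace Pool.Agent.H410.Sector

open Finset

/-- cross product -/
def crs (e w : Fin 3 → ℝ) : Fin 3 → ℝ :=
  ![e 1 * w 2 - e 2 * w 1, e 2 * w 0 - e 0 * w 2, e 0 * w 1 - e 1 * w 0]

lemma crs_left (e w : Fin 3 → ℝ) : ip (crs e w) e = 0 := by
  simp only [ip, crs, Matrix.cons_val_zero, Matrix.cons_val_one, Matrix.cons_val]; ring

lemma crs_right (e w : Fin 3 → ℝ) : ip (crs e w) w = 0 := by
  simp only [ip, crs, Matrix.cons_val_zero, Matrix.cons_val_one, Matrix.cons_val]; ring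

lemma crs_self (e w : Fin 3 → ℝ) : ip (crs e w) (crs e w) = ip e e * ip w w - ip e w ^ 2 := by
  simp only [ip, crs, Matrix.cons_val_zero, Matrix.cons_val_one, Matrix.cons_val]; ring

lemma ip_comm (e w : Fin 3 → ℝ) : ip e w = ip w e := by
  simp only [ip]; ring

/-- generic pencil of directions: distinct slopes, nonzero directions, and ties are collinear -/
lemma exists_pencil (S : Finset (Fin 3 → ℝ)) :
    ∃ α β : Fin 3 → ℝ, (∀ x ∈ S, ∀ y ∈ S, ip β x = ip β y → x = y) ∧
      (∀ t : ℝ, α + t • β ≠ 0) ∧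
      (∀ t : ℝ, ∀ x ∈ S, ∀ y ∈ S, ∀ z ∈ S, x ≠ y → ip (α + t • β) x = ip (α + t • β) y →
        ip (α + t • β) z = ip (α + t • β) x → ∃ s : ℝ, z - x = s • (y - x)) := by
  classical
  obtain ⟨β, hβ0, hβ⟩ := exists_generic (S.offDiag.image (fun z => z.1 - z.2)) (by
    intro u hu
    obtain ⟨z, hz, rfl⟩ := mem_image.mp hu
    exact sub_ne_zero.mpr (mem_offDiag.mp hz).2.2)
  have hβ' : ∀ x ∈ S, ∀ y ∈ S, x ≠ y → ip β (x - y) ≠ 0 := by
    intro x hx y hy hxy
    exact hβ _ (mem_image.mpr ⟨(x, y), mem_offDiag.mpr ⟨hx, hy, hxy⟩, rfl⟩)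
  obtain ⟨α, hα0, hα⟩ := exists_generic
    (insert (![β 1, -1, 0] : Fin 3 → ℝ)
      (((S ×ˢ S ×ˢ S).image (fun w => ip β (w.2.2 - w.1) • (w.2.1 - w.1)
        - ip β (w.2.1 - w.1) • (w.2.2 - w.1))).filter (fun u => u ≠ 0))) (by
    intro u hu
    rcases mem_insert.mp hu with h | h
    · subst h
      intro h1
      have := congrFun h1 1
      simp at this
    · exact (mem_filter.mp h).2)
  refine ⟨α, β, ?_, ?_, ?_⟩
  · intro x hx y hy h
    by_contra hne
    apply hβ' x hx y hy hne
    rw [ip_sub_right]; linarith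
  · intro t h
    have h1 := hα _ (mem_insert_self _ _)
    apply h1
    have h2 : ip (α + t • β) ![β 1, -1, 0] = 0 := by rw [h]; exact ip_zero_left _
    rw [ip_add, ip_smul] at h2
    have h3 : ip β ![β 1, -1, 0] = 0 := by
      simp only [ip, Matrix.cons_val_zero, Matrix.cons_val_one, Matrix.cons_val, hβ0]; ring
    rw [h3] at h2
    linarith
  · intro t x hx y hy z hz hxy hty htz
    set u := ip β (z - x) • (y - x) - ip β (y - x) • (z - x) with hu
    have hu0 : u = 0 := by
      by_contra hne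
      have h1 := hα u (mem_insert_of_mem (mem_filter.mpr ⟨mem_image.mpr ⟨(x, y, z), by
        simp [hx, hy, hz], rfl⟩, hne⟩))
      apply h1
      rw [hu, ip_sub_right, ip_smul_right, ip_smul_right]
      rw [ip_add, ip_smul, ip_add, ip_smul] at hty htz
      simp only [ip_sub_right]
      linear_combination (ip β z - ip β x) * (-hty) - (ip β y - ip β x) * htz
    have hb : ip β (y - x) ≠ 0 := hβ' y hy x hx (Ne.symm hxy)
    refine ⟨ip β (z - x) / ip β (y - x), ?_⟩
    have h2 : ip β (z - x) • (y - x) = ip β (y - x) • (z - x) := sub_eq_zero.mp hu0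
    rw [div_eq_inv_mul, ← smul_smul, h2, smul_smul, inv_mul_cancel₀ hb, one_smul]

set_option maxHeartbeats 4000000 in
theorem core (S : Finset (Fin 3 → ℝ)) (C : ℕ) (hC : 1 ≤ C) (hS : 2 ≤ S.card) (hG : GapS S C) :
    ∃ v : Fin 3 → ℝ, v ≠ 0 ∧ ∃ c : ℝ,
      2 ^ (C / 2) ≤ (S.filter (fun z => ip v z = c)).card * (S.filter (fun z => ip v z = c)).card
        - (S.filter (fun z => ip v z = c)).card + 1 := by
  classical
  obtain ⟨α, β, hβ, hw0, hcol⟩ := exists_pencil S
  have hg : ∀ (a b : Fin 3 → ℝ) (t : ℝ), g (ip a) (ip b) t = ip (a + t • b) := by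
    intro a b t
    funext x
    unfold g
    rw [ip_add, ip_smul]
  have hG0 : Gap S 0 0 C (ip α) (ip β) := by
    intro t x hx y hy hxy h
    rw [hg] at h ⊢
    have := hG _ (hw0 t) x hx y hy hxy h
    omega
  -- size of S
  have hn : C + 3 ≤ S.card := by
    obtain ⟨x, hx, y, hy, hxy⟩ := Finset.one_lt_card.mp (by omega : 1 < S.card)
    have hb : ip β x - ip β y ≠ 0 := fun h => hxy (hβ x hx y hy (by linarith))
    set t := (ip α y - ip α x) / (ip β x - ip β y) with ht
    have htt : t * (ip β x - ip β y) = ip α y - ip α x := by rw [ht]; field_simp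
    have h1 : g (ip α) (ip β) t x = g (ip α) (ip β) t y := by
      unfold g; linarith
    have h2 := hG0 t x hx y hy hxy h1
    have h3 := up_dn_lev S (g (ip α) (ip β) t) (g (ip α) (ip β) t x)
    have h4 : 2 ≤ lev S (g (ip α) (ip β) t) (g (ip α) (ip β) t x) := by
      unfold lev
      have : ({x, y} : Finset (Fin 3 → ℝ)) ⊆ S.filter (fun z => g (ip α) (ip β) t z = g (ip α) (ip β) t x) := by
        intro z hz
        rcases mem_insert.mp hz with h | h
        · subst h; exact mem_filter.mpr ⟨hx, rfl⟩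
        · rw [mem_singleton] at h; subst h; exact mem_filter.mpr ⟨hy, h1.symm⟩
      have h5 := Finset.card_le_card this
      rw [Finset.card_pair hxy] at h5
      exact h5
    omega
  set n := S.card with hnn
  set L := (n - C + 1) / 2 with hL
  obtain ⟨t0, p0, hp0, p1, hp1, hp01, htie, hupL, hdnL⟩ := covering (L := L) hβ hG0
    (by omega) (by omega) (by omega)
  set w := α + t0 • β with hw
  have hwne : w ≠ 0 := hw0 t0
  rw [hg, ← hw] at htie hupL hdnL
  set e := p1 - p0 with he
  have hene : e ≠ 0 := sub_ne_zero.mpr (Ne.symm hp01)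
  have hwe : ip w e = 0 := by rw [he, ip_sub_right]; linarith
  have hline : ∀ z ∈ S, ip w z = ip w p0 → ∃ s : ℝ, z - p0 = s • e :=
    fun z hz h => hcol t0 p0 hp0 p1 hp1 z hz hp01 htie h
  set η := crs e w with hη
  have hηe : ip η e = 0 := crs_left e w
  have hηw : ip η w = 0 := crs_right e w
  have hηne : η ≠ 0 := by
    intro h
    have h1 := crs_self e w
    rw [← hη, h, ip_zero_left, ip_comm e w, hwe] at h1
    have h2 := ip_self_pos hene
    have h3 := ip_self_pos hwne
    nlinarith
  have hηp : ip η p0 = ip η p1 := by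
    have : ip η (p1 - p0) = 0 := hηe
    rw [ip_sub_right] at this; linarith
  -- a point off the plane of normal `η`
  have hY : (S.filter (fun z => ip η z - ip η p0 ≠ 0)).Nonempty := by
    by_contra hc
    rw [Finset.not_nonempty_iff_eq_empty, Finset.filter_eq_empty_iff] at hc
    have h1 := hG η hηne p0 hp0 p1 hp1 hp01 hηp
    have h2 : up S (ip η) (ip η p0) = 0 := by
      unfold up
      rw [Finset.card_eq_zero, Finset.filter_eq_empty_iff]
      intro z hz h3
      exact hc hz (ne_of_gt (sub_pos.mpr h3))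
    have h3 : dn S (ip η) (ip η p0) = 0 := by
      unfold dn
      rw [Finset.card_eq_zero, Finset.filter_eq_empty_iff]
      intro z hz h3
      exact hc hz (ne_of_lt (sub_neg.mpr h3))
    omega
  obtain ⟨ys, hysY, hysmin⟩ := Finset.exists_min_image _
    (fun z => |ip w z - ip w p0| / |ip η z - ip η p0|) hY
  obtain ⟨hysS, hysη⟩ := mem_filter.mp hysY
  set σ := -(ip w ys - ip w p0) / (ip η ys - ip η p0) with hσ
  have hσe : σ * (ip η ys - ip η p0) = -(ip w ys - ip w p0) := by rw [hσ]; field_simp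
  have hσabs : |σ| = |ip w ys - ip w p0| / |ip η ys - ip η p0| := by
    rw [hσ, abs_div, abs_neg]
  set v := w + σ • η with hv
  have hvip : ∀ z, ip v z = ip w z + σ * ip η z := by
    intro z; rw [hv, ip_add, ip_smul]
  have hvne : v ≠ 0 := by
    intro h
    have h1 : ip v w = 0 := by rw [h]; exact ip_zero_left w
    rw [hvip, hηw] at h1
    have := ip_self_pos hwne
    linarith
  set c := ip v p0 with hc
  obtain ⟨A, hA⟩ : ∃ A, A = S.filter (fun z => ip v z = c) := ⟨_, rfl⟩
  have hAS : A ⊆ S := by rw [hA]; exact Finset.filter_subset _ _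
  have hAm : ∀ z, z ∈ A ↔ (z ∈ S ∧ ip v z = c) := by
    intro z; rw [hA, mem_filter]
  have hysA : ys ∈ A := by
    refine (hAm ys).mpr ⟨hysS, ?_⟩
    rw [hc, hvip, hvip]
    linarith
  -- signs outside A
  have hsgn : ∀ z ∈ S, z ∉ A → (0 < ip v z - c ↔ 0 < ip w z - ip w p0) ∧
      (ip v z - c < 0 ↔ ip w z - ip w p0 < 0) := by
    intro z hz hzA
    have h1 : ip v z - c = (ip w z - ip w p0) + σ * (ip η z - ip η p0) := by
      rw [hc, hvip, hvip]; ring
    have h2 : ip v z - c ≠ 0 := fun h => hzA ((hAm z).mpr ⟨hz, by linarith⟩)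
    have h3 : |σ * (ip η z - ip η p0)| ≤ |ip w z - ip w p0| := by
      by_cases h4 : ip η z - ip η p0 = 0
      · rw [h4, mul_zero, abs_zero]; exact abs_nonneg _
      · have h5 : |ip w ys - ip w p0| / |ip η ys - ip η p0| ≤ |ip w z - ip w p0| / |ip η z - ip η p0| :=
          hysmin z (mem_filter.mpr ⟨hz, h4⟩)
        rw [← hσabs, le_div_iff₀ (abs_pos.mpr h4), ← abs_mul] at h5
        exact h5
    rw [h1] at h2 ⊢
    rcases lt_trichotomy (ip w z - ip w p0) 0 with h6 | h6 | h6
    · rw [abs_of_neg h6] at h3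
      have h7 := (abs_le.mp h3).2
      constructor
      · constructor <;> intro h8 <;> linarith
      · constructor
        · intro _; exact h6
        · intro _; exact lt_of_le_of_ne (by linarith) h2
    · rw [h6, abs_zero] at h3
      have h7 := abs_eq_zero.mp (le_antisymm h3 (abs_nonneg _))
      exfalso
      apply h2
      rw [h6, h7]; ring
    · rw [abs_of_pos h6] at h3
      have h7 := (abs_le.mp h3).1
      constructor
      · constructor
        · intro _; exact h6
        · intro _; exact lt_of_le_of_ne (by linarith) (Ne.symm h2)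
      · constructor <;> intro h8 <;> linarith
  obtain ⟨U, hU⟩ : ∃ U, U = up S (ip v) c := ⟨_, rfl⟩
  obtain ⟨D, hD⟩ : ∃ D, D = dn S (ip v) c := ⟨_, rfl⟩
  have hUD : U + D + A.card = n := by
    rw [hU, hD, hA]; exact up_dn_lev S (ip v) c
  have hupw : up S (ip w) (ip w p0) = U + up A (ip w) (ip w p0) := by
    rw [hU]
    unfold up
    apply split_card hAS
    · intro z hz hzA
      obtain ⟨h1, h2⟩ := hsgn z hz hzA
      rw [sub_pos, sub_pos] at h1
      exact h1.symm
    · intro z hz h4
      have := ((hAm z).mp hz).2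
      linarith
    · intro z _; exact Iff.rfl
  have hdnw : dn S (ip w) (ip w p0) = D + dn A (ip w) (ip w p0) := by
    rw [hD]
    unfold dn
    apply split_card hAS
    · intro z hz hzA
      obtain ⟨h1, h2⟩ := hsgn z hz hzA
      rw [sub_neg, sub_neg] at h2
      exact h2.symm
    · intro z hz h4
      have := ((hAm z).mp hz).2
      linarith
    · intro z _; exact Iff.rfl
  -- the line
  obtain ⟨l, hl⟩ : ∃ l, l = S.filter (fun z => ip w z = ip w p0) := ⟨_, rfl⟩
  have hlm : ∀ z, z ∈ l ↔ (z ∈ S ∧ ip w z = ip w p0) := by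
    intro z; rw [hl, mem_filter]
  have hlA : l ⊆ A := by
    intro z hz
    obtain ⟨hzS, hzw⟩ := (hlm z).mp hz
    obtain ⟨s, hs⟩ := hline z hzS hzw
    refine (hAm z).mpr ⟨hzS, ?_⟩
    have h1 : ip v (z - p0) = 0 := by
      rw [hs, ip_smul_right, hvip, hwe, hηe]; ring
    rw [ip_sub_right] at h1
    linarith
  have hysl : ip w ys ≠ ip w p0 := by
    intro h
    obtain ⟨s, hs⟩ := hline ys hysS h
    apply hysη
    have h1 : ip η (ys - p0) = 0 := by
      rw [hs, ip_smul_right, hηe]; ring
    rw [ip_sub_right] at h1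
    exact h1
  have hlcard : up S (ip w) (ip w p0) + dn S (ip w) (ip w p0) + l.card = n := by
    rw [hl]; exact up_dn_lev S (ip w) (ip w p0)
  set M := (n - 1) / 2 with hM
  -- the pivot
  obtain ⟨p, hpl, hpc⟩ := exists_rank l (fun z => -ip β z)
    (fun x hx y hy h => hβ x ((hlm x).mp hx).1 y ((hlm y).mp hy).1 (by linarith))
    (M - up S (ip w) (ip w p0)) (by omega)
  obtain ⟨hpS, hpw⟩ := (hlm p).mp hpl
  have hpA : p ∈ A := hlA hpl
  set a := ip w ys - ip w p with ha
  have hane : a ≠ 0 := by rw [ha, hpw]; exact sub_ne_zero.mpr hysl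
  set bb := ip β ys - ip β p with hbb
  set θ := β - (bb / a + 1) • w with hθ
  have hθip : ∀ z, ip θ z = ip β z - (bb / a + 1) * ip w z := by
    intro z; rw [hθ, ip_sub, ip_smul]
  have hIA : Inj A (ip w) (ip θ) := by
    intro x hx y hy h1 h2
    rw [hθip, hθip, h1] at h2
    exact hβ x (hAS hx) y (hAS hy) (by linarith)
  have hGA : Gap A U D C (ip w) (ip θ) := by
    intro t x hx y hy hxy h
    rw [hg] at h ⊢
    have h1 := gap_plane hG hvne (w + t • θ) (hAS hx) (hAS hy) hxy ((hAm x).mp hx).2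
      ((hAm y).mp hy).2 h
    rw [← hA, ← hU, ← hD] at h1
    exact h1
  have htie1 : g (ip w) (ip θ) 1 ys = g (ip w) (ip θ) 1 p := by
    unfold g
    rw [hθip, hθip]
    have h1 : bb / a * a = bb := by field_simp
    have h2 : (bb / a + 1) * (ip w ys - ip w p) = bb + a := by rw [← ha]; linarith
    have h3 : ip β ys - ip β p = bb := rfl
    linarith
  have hysp : ys ≠ p := by
    intro h
    apply hane
    rw [ha, h]; ring
  set W := (T A (ip w) (ip θ)).filter
    (fun t => 0 < t ∧ ∃ y ∈ A, y ≠ p ∧ g (ip w) (ip θ) t y = g (ip w) (ip θ) t p) with hW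
  have hWne : W.Nonempty := ⟨1, mem_filter.mpr ⟨mem_T hIA hysA hpA hysp htie1, one_pos, ys, hysA,
    hysp, htie1⟩⟩
  obtain ⟨t2, ht2W, ht2min⟩ := Finset.exists_min_image W id hWne
  simp only [id] at ht2min
  obtain ⟨ht2T, ht2pos, y2, hy2A, hy2p, hy2⟩ := mem_filter.mp ht2W
  have halone : ∀ t, 0 < t → t < t2 → ∀ x ∈ A, x ≠ p → g (ip w) (ip θ) t x ≠ g (ip w) (ip θ) t p := by
    intro t h1 h2 x hx hxp h3
    have := ht2min t (mem_filter.mpr ⟨mem_T hIA hx hpA hxp h3, h1, x, hx, hxp, h3⟩)
    linarith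
  -- position of the points of A relative to p on (0,t2)
  have hpos : ∀ t, 0 < t → t < t2 → ∀ y ∈ A,
      (g (ip w) (ip θ) t p < g (ip w) (ip θ) t y ↔
        (ip w p < ip w y ∨ (ip w y = ip w p ∧ ip β p < ip β y))) := by
    intro t h1 h2 y hy
    by_cases hyp : y = p
    · subst hyp
      simp
    rcases lt_trichotomy (ip w y) (ip w p) with h3 | h3 | h3
    · have h4 : g (ip w) (ip θ) 0 y < g (ip w) (ip θ) 0 p := by unfold g; linarith
      have h5 : g (ip w) (ip θ) t y < g (ip w) (ip θ) t p := by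
        by_contra hcc
        push Not at hcc
        obtain ⟨r, hr, hr'⟩ := cross h4 hcc
        rcases hr' with hr' | hr'
        · linarith
        · exact halone r hr'.1 (by linarith) y hy hyp hr
      constructor
      · intro h6; linarith
      · rintro (h6 | h6)
        · linarith
        · linarith [h6.1]
    · have h4 : g (ip w) (ip θ) t y - g (ip w) (ip θ) t p = t * (ip β y - ip β p) := by
        unfold g
        rw [hθip, hθip, h3]; ring
      constructor
      · intro h5
        right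
        refine ⟨h3, ?_⟩
        by_contra h6
        push Not at h6
        have : t * (ip β y - ip β p) ≤ 0 := mul_nonpos_of_nonneg_of_nonpos h1.le (by linarith)
        linarith
      · rintro (h5 | ⟨h5, h6⟩)
        · linarith
        · have : 0 < t * (ip β y - ip β p) := mul_pos h1 (by linarith)
          linarith
    · have h4 : g (ip w) (ip θ) 0 p < g (ip w) (ip θ) 0 y := by unfold g; linarith
      have h5 : g (ip w) (ip θ) t p < g (ip w) (ip θ) t y := by
        by_contra hcc
        push Not at hcc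
        obtain ⟨r, hr, hr'⟩ := cross h4 hcc
        rcases hr' with hr' | hr'
        · linarith
        · exact halone r hr'.1 (by linarith) y hy hyp hr.symm
      constructor
      · intro _; exact Or.inl h3
      · intro _; exact h5
  have huM : ∀ t, 0 < t → t < t2 → U + up A (g (ip w) (ip θ) t) (g (ip w) (ip θ) t p) = M := by
    intro t h1 h2
    have h3 : up A (g (ip w) (ip θ) t) (g (ip w) (ip θ) t p) =
        up A (ip w) (ip w p0) + (l.filter (fun z => -ip β z < -ip β p)).card := by
      unfold up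
      rw [← Finset.card_union_of_disjoint]
      · congr 1
        ext y
        constructor
        · intro hyy
          obtain ⟨hy, h4⟩ := mem_filter.mp hyy
          rw [mem_union]
          rcases (hpos t h1 h2 y hy).mp h4 with h5 | ⟨h5, h6⟩
          · left; exact mem_filter.mpr ⟨hy, by rw [← hpw]; exact h5⟩
          · right
            exact mem_filter.mpr ⟨(hlm y).mpr ⟨hAS hy, by rw [h5, hpw]⟩, by linarith⟩
        · intro hyy
          rcases mem_union.mp hyy with h | h
          · obtain ⟨hy, h4⟩ := mem_filter.mp h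
            exact mem_filter.mpr ⟨hy, (hpos t h1 h2 y hy).mpr (Or.inl (by rw [hpw]; exact h4))⟩
          · obtain ⟨hy, h4⟩ := mem_filter.mp h
            have hyA := hlA hy
            exact mem_filter.mpr ⟨hyA, (hpos t h1 h2 y hyA).mpr
              (Or.inr ⟨by rw [((hlm y).mp hy).2, hpw], by linarith⟩)⟩
      · rw [Finset.disjoint_left]
        intro y h4 h5
        have h6 := (mem_filter.mp h4).2
        have h7 := ((hlm y).mp (mem_filter.mp h5).1).2
        linarith
    omega
  -- the numbers at time t2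
  have ht2le : ∀ y ∈ A, ∀ t, 0 < t → t < t2 → g (ip w) (ip θ) t p < g (ip w) (ip θ) t y →
      g (ip w) (ip θ) t2 p ≤ g (ip w) (ip θ) t2 y := by
    intro y hy t h1 h2 h3
    by_cases hyp : y = p
    · rw [hyp]
    · exact stay_le (fun r h4 h5 h6 => halone r h4 h5 y hy hyp h6.symm) h1 h2 h3 t2 ht2pos.le le_rfl
  have ht2le' : ∀ y ∈ A, ∀ t, 0 < t → t < t2 → ¬ g (ip w) (ip θ) t p < g (ip w) (ip θ) t y →
      g (ip w) (ip θ) t2 y ≤ g (ip w) (ip θ) t2 p := by
    intro y hy t h1 h2 h3
    by_cases hyp : y = p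
    · rw [hyp]
    · have h4 : g (ip w) (ip θ) t y < g (ip w) (ip θ) t p :=
        lt_of_le_of_ne (not_lt.mp h3) (halone t h1 h2 y hy hyp)
      exact stay_le (fun r h5 h6 h7 => halone r h5 h6 y hy hyp h7) h1 h2 h4 t2 ht2pos.le le_rfl
  set tm := t2 / 2 with htm
  have htm1 : 0 < tm := by rw [htm]; linarith
  have htm2 : tm < t2 := by rw [htm]; linarith
  have hup2 : U + up A (g (ip w) (ip θ) t2) (g (ip w) (ip θ) t2 p) ≤ M := by
    rw [← huM tm htm1 htm2]
    apply Nat.add_le_add_left
    unfold up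
    apply Finset.card_le_card
    intro y hy
    obtain ⟨hyA, h1⟩ := mem_filter.mp hy
    refine mem_filter.mpr ⟨hyA, ?_⟩
    by_contra h2
    have := ht2le' y hyA tm htm1 htm2 h2
    linarith
  have halev : ∀ t, 0 < t → t < t2 → lev A (g (ip w) (ip θ) t) (g (ip w) (ip θ) t p) = 1 := by
    intro t h1 h2
    unfold lev
    rw [Finset.card_eq_one]
    refine ⟨p, ?_⟩
    ext y
    rw [mem_filter, mem_singleton]
    constructor
    · rintro ⟨hy, h3⟩
      by_contra h4
      exact halone t h1 h2 y hy h4 h3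
    · rintro rfl; exact ⟨hpA, rfl⟩
  have hdM : ∀ t, 0 < t → t < t2 →
      D + dn A (g (ip w) (ip θ) t) (g (ip w) (ip θ) t p) = n - 1 - M := by
    intro t h1 h2
    have h3 := up_dn_lev A (g (ip w) (ip θ) t) (g (ip w) (ip θ) t p)
    have h4 := halev t h1 h2
    have h5 := huM t h1 h2
    omega
  have hdn2 : D + dn A (g (ip w) (ip θ) t2) (g (ip w) (ip θ) t2 p) ≤ n - 1 - M := by
    rw [← hdM tm htm1 htm2]
    apply Nat.add_le_add_left
    unfold dn
    apply Finset.card_le_card
    intro y hy
    obtain ⟨hyA, h1⟩ := mem_filter.mp hy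
    refine mem_filter.mpr ⟨hyA, ?_⟩
    have hyp : y ≠ p := by rintro rfl; linarith
    refine lt_of_le_of_ne ?_ (halone tm htm1 htm2 y hyA hyp)
    by_contra h2
    push Not at h2
    have := ht2le y hyA tm htm1 htm2 h2
    linarith
  have hg0 : g (ip w) (ip θ) 0 = ip w := by
    funext x; unfold g; ring
  have hup0 : U + up A (g (ip w) (ip θ) 0) (g (ip w) (ip θ) 0 p) = up S (ip w) (ip w p0) := by
    rw [hg0, hpw]; exact hupw.symm
  have hdn0 : D + dn A (g (ip w) (ip θ) 0) (g (ip w) (ip θ) 0 p) = dn S (ip w) (ip w p0) := by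
    rw [hg0, hpw]; exact hdnw.symm
  refine ⟨v, hvne, c, ?_⟩
  rw [← hA]
  generalize hK : A.card * A.card = K
  rcases hGA t2 p hpA y2 hy2A (Ne.symm hy2p) hy2.symm with hT | hT
  · -- T-type: upward
    have hSec : Sec A U (ip w) (ip θ) (L - 1) (M - (L - 1)) p 0 t2 := by
      refine ⟨hpA, ht2pos, halone, ?_, ?_, ?_⟩
      · intro t h1 h2
        rw [huM t h1 h2]; omega
      · rw [hup0]; omega
      · omega
    have h1 := sector hIA hGA (lam := L - 1) (by omega) (M - (L - 1)) (by omega) p 0 t2 hSec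
    have h2 : ((T A (ip w) (ip θ)).filter (fun t => 0 < t ∧ t < t2)).card ≤ K - A.card := by
      rw [← hK]
      exact le_trans (Finset.card_le_card (Finset.filter_subset _ _)) (card_T _ _ _)
    have h3 : 2 ^ (C / 2) ≤ 2 ^ (M - (L - 1)) := Nat.pow_le_pow_right (by norm_num) (by omega)
    omega
  · -- D-type: downward
    have hSec : Sec A D (fun y => -ip w y) (fun y => -ip θ y) (L - 1) (n - 1 - M - (L - 1)) p 0 t2 := by
      refine ⟨hpA, ht2pos, ?_, ?_, ?_, ?_⟩
      · intro t h1 h2 x hx hxp h3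
        rw [g_negneg, g_negneg] at h3
        exact halone t h1 h2 x hx hxp (by linarith)
      · intro t h1 h2
        rw [up_neg, hdM t h1 h2]; omega
      · rw [up_neg, hdn0]; omega
      · rw [up_neg]; omega
    have h1 := sector hIA.neg hGA.neg (lam := L - 1) (by omega) (n - 1 - M - (L - 1)) (by omega) p 0 t2 hSec
    have h2 : ((T A (fun y => -ip w y) (fun y => -ip θ y)).filter (fun t => 0 < t ∧ t < t2)).card
        ≤ K - A.card := by
      rw [← hK]
      exact le_trans (Finset.card_le_card (Finset.filter_subset _ _)) (card_T _ _ _)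
    have h3 : 2 ^ (C / 2) ≤ 2 ^ (n - 1 - M - (L - 1)) := Nat.pow_le_pow_right (by norm_num) (by omega)
    omega

end Pool.Agent.H410.Sector
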