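import Pool.Agent.H410.Sector

set_option autoImplicit false
set_option linter.unusedSectionVars false

namespace Pool.Agent.H410.Sector

open Finset

variable {V : Type*} [DecidableEq V]

lemma exists_rank (S : Finset V) (f : V → ℝ) (hf : ∀ x ∈ S, ∀ y ∈ S, f x = f y → x = y) :
    ∀ j, j < S.card → ∃ p ∈ S, (S.filter (fun y => f y < f p)).card = j := by
  classical
  intro j
  induction j with
  | zero =>
    intro h
    have hne : S.Nonempty := Finset.card_pos.mp h
    obtain ⟨p, hp, hmin⟩ := Finset.exists_min_image S f hne
    refine ⟨p, hp, ?_⟩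
    rw [Finset.card_eq_zero, Finset.filter_eq_empty_iff]
    intro y hy
    exact not_lt.mpr (hmin y hy)
  | succ j ih =>
    intro h
    obtain ⟨p, hp, hpj⟩ := ih (by omega)
    have hne : (S.filter (fun y => f p < f y)).Nonempty := by
      by_contra hc
      rw [Finset.not_nonempty_iff_eq_empty, Finset.filter_eq_empty_iff] at hc
      have hS : S = insert p (S.filter (fun y => f y < f p)) := by
        ext y
        rw [mem_insert, mem_filter]
        constructor
        · intro hy
          rcases lt_or_eq_of_le (not_lt.mp (hc hy)) with h1 | h1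
          · exact Or.inr ⟨hy, h1⟩
          · exact Or.inl (hf y hy p hp h1)
        · rintro (h1 | h1)
          · rw [h1]; exact hp
          · exact h1.1
      have h2 : S.card ≤ (S.filter (fun y => f y < f p)).card + 1 := by
        conv_lhs => rw [hS]
        exact Finset.card_insert_le _ _
      omega
    obtain ⟨q, hq, hmin⟩ := Finset.exists_min_image _ f hne
    obtain ⟨hqS, hpq⟩ := mem_filter.mp hq
    refine ⟨q, hqS, ?_⟩
    have hE : S.filter (fun y => f y < f q) = insert p (S.filter (fun y => f y < f p)) := by
      ext y
      rw [mem_insert, mem_filter, mem_filter]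
      constructor
      · rintro ⟨hy, h1⟩
        rcases lt_trichotomy (f y) (f p) with h2 | h2 | h2
        · exact Or.inr ⟨hy, h2⟩
        · exact Or.inl (hf y hy p hp h2)
        · have := hmin y (mem_filter.mpr ⟨hy, h2⟩)
          linarith
      · rintro (h1 | h1)
        · rw [h1]; exact ⟨hp, hpq⟩
        · exact ⟨h1.1, by linarith [h1.2]⟩
    rw [hE, Finset.card_insert_of_notMem, hpj]
    intro h1
    have := (mem_filter.mp h1).2
    linarith

/-- order just after `t` -/
def ltR (α β : V → ℝ) (t : ℝ) (y x : V) : Prop :=
  g α β t y < g α β t x ∨ (g α β t y = g α β t x ∧ β y < β x)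

/-- order just before `t` -/
def ltL (α β : V → ℝ) (t : ℝ) (y x : V) : Prop :=
  g α β t y < g α β t x ∨ (g α β t y = g α β t x ∧ β x < β y)

lemma order_const {α β : V → ℝ} {x y : V} {a b : ℝ} (hab : a < b)
    (h : ∀ r, a < r → r < b → g α β r y ≠ g α β r x) (hne : β x ≠ β y) :
    ltR α β a y x ↔ ltL α β b y x := by
  unfold ltR ltL
  set m := (a + b) / 2 with hm
  have hm1 : a < m := by rw [hm]; linarith
  have hm2 : m < b := by rw [hm]; linarith
  have hmid := h m hm1 hm2
  rcases lt_or_gt_of_ne hmid with h1 | h1
  · -- y below x at mid
    have h2 := stay_le h hm1 hm2 h1 a le_rfl hab.le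
    have h3 := stay_le h hm1 hm2 h1 b hab.le le_rfl
    constructor
    · intro _
      rcases lt_or_eq_of_le h3 with h4 | h4
      · exact Or.inl h4
      · refine Or.inr ⟨h4, ?_⟩
        unfold g at h1 h4
        by_contra hc
        push Not at hc
        nlinarith
    · intro _
      rcases lt_or_eq_of_le h2 with h4 | h4
      · exact Or.inl h4
      · refine Or.inr ⟨h4, ?_⟩
        unfold g at h1 h4
        by_contra hc
        push Not at hc
        nlinarith
  · have h' : ∀ r, a < r → r < b → g α β r x ≠ g α β r y := fun r h3 h4 h5 => h r h3 h4 h5.symm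
    have h2 := stay_le h' hm1 hm2 h1 a le_rfl hab.le
    have h3 := stay_le h' hm1 hm2 h1 b hab.le le_rfl
    constructor
    · rintro (h4 | ⟨h4, h5⟩)
      · linarith
      · exfalso
        unfold g at h1 h4
        nlinarith
    · rintro (h4 | ⟨h4, h5⟩)
      · linarith
      · exfalso
        unfold g at h1 h4
        nlinarith

open Classical in
/-- `P t`: the element with exactly `k` elements below it (just after `t`) has slope at least `s`. -/
def PR (S : Finset V) (α β : V → ℝ) (k : ℕ) (s : ℝ) (t : ℝ) : Prop :=
  ∃ x ∈ S, s ≤ β x ∧ (S.filter (fun y => ltR α β t y x)).card = k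

open Classical in
def PL (S : Finset V) (α β : V → ℝ) (k : ℕ) (s : ℝ) (t : ℝ) : Prop :=
  ∃ x ∈ S, s ≤ β x ∧ (S.filter (fun y => ltL α β t y x)).card = k

lemma sweep {S : Finset V} {α β : V → ℝ} {k : ℕ} {s : ℝ}
    (hβ : ∀ x ∈ S, ∀ y ∈ S, β x = β y → x = y)
    (hstep : ∀ t, PL S α β k s t → PR S α β k s t) :
    ∀ N : ℕ, ∀ a b : ℝ, a < b → ((T S α β).filter (fun t => a < t ∧ t < b)).card ≤ N →
      PR S α β k s a → PL S α β k s b := by
  classical
  have hI : Inj S α β := fun x hx y hy _ h => hβ x hx y hy h
  intro N
  induction N with
  | zero =>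
    intro a b hab hN hP
    obtain ⟨x, hx, hsx, hc⟩ := hP
    refine ⟨x, hx, hsx, ?_⟩
    rw [← hc]
    congr 1
    apply Finset.filter_congr
    intro y hy
    by_cases hyx : y = x
    · subst hyx
      unfold ltL ltR
      simp
    · refine (order_const hab ?_ ?_).symm
      · intro r h1 h2 h3
        have : r ∈ (T S α β).filter (fun t => a < t ∧ t < b) :=
          mem_filter.mpr ⟨mem_T hI hy hx hyx h3, h1, h2⟩
        have h4 := Finset.card_pos.mpr ⟨r, this⟩
        omega
      · intro h1
        exact hyx (hβ y hy x hx h1.symm)
  | succ N ih =>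
    intro a b hab hN hP
    by_cases h0 : ((T S α β).filter (fun t => a < t ∧ t < b)).card ≤ N
    · exact ih a b hab h0 hP
    · have hpos : 0 < ((T S α β).filter (fun t => a < t ∧ t < b)).card := by omega
      obtain ⟨c, hc⟩ := Finset.card_pos.mp hpos
      obtain ⟨hcT, hac, hcb⟩ := mem_filter.mp hc
      have hlt1 : ((T S α β).filter (fun t => a < t ∧ t < c)).card <
          ((T S α β).filter (fun t => a < t ∧ t < b)).card := by
        apply Finset.card_lt_card
        rw [Finset.ssubset_iff_of_subset]
        · exact ⟨c, hc, fun h => by have := (mem_filter.mp h).2.2; linarith⟩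
        · intro t ht
          obtain ⟨h1, h2, h3⟩ := mem_filter.mp ht
          exact mem_filter.mpr ⟨h1, h2, by linarith⟩
      have hlt2 : ((T S α β).filter (fun t => c < t ∧ t < b)).card <
          ((T S α β).filter (fun t => a < t ∧ t < b)).card := by
        apply Finset.card_lt_card
        rw [Finset.ssubset_iff_of_subset]
        · exact ⟨c, hc, fun h => by have := (mem_filter.mp h).2.1; linarith⟩
        · intro t ht
          obtain ⟨h1, h2, h3⟩ := mem_filter.mp ht
          exact mem_filter.mpr ⟨h1, by linarith, h3⟩
      have h1 := ih a c hac (by omega) hP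
      have h2 := hstep c h1
      exact ih c b hcb (by omega) h2

/-- **Covering tie.**  If all slopes are distinct and the gap condition holds, some tie has fewer
than `L` elements above it and fewer than `L` elements below it. -/
theorem covering {S : Finset V} {C : ℕ} {α β : V → ℝ} {L : ℕ}
    (hβ : ∀ x ∈ S, ∀ y ∈ S, β x = β y → x = y) (hG : Gap S 0 0 C α β)
    (hL1 : S.card ≤ 2 * L + C) (hL2 : 2 * L ≤ S.card) (hL3 : 1 ≤ L) :
    ∃ t, ∃ x ∈ S, ∃ y ∈ S, x ≠ y ∧ g α β t x = g α β t y ∧
      up S (g α β t) (g α β t x) < L ∧ dn S (g α β t) (g α β t x) < L := by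
  classical
  by_contra hcon
  push Not at hcon
  have hI : Inj S α β := fun x hx y hy _ h => hβ x hx y hy h
  -- threshold slope
  obtain ⟨b0, hb0, hb0c⟩ := exists_rank S β hβ L (by omega)
  -- the local step
  have hstep : ∀ t, PL S α β (L - 1) (β b0) t → PR S α β (L - 1) (β b0) t := by
    intro t hP
    obtain ⟨x, hx, hsx, hc⟩ := hP
    set E := S.filter (fun y => g α β t y = g α β t x) with hE
    have hxE : x ∈ E := mem_filter.mpr ⟨hx, rfl⟩
    have hES : ∀ y ∈ E, y ∈ S := fun y hy => (mem_filter.mp hy).1
    have hsplitL : (S.filter (fun y => ltL α β t y x)).card =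
        dn S (g α β t) (g α β t x) + (E.filter (fun y => β x < β y)).card := by
      unfold dn
      rw [← Finset.card_union_of_disjoint]
      · congr 1
        ext y
        rw [mem_filter, mem_union, mem_filter, mem_filter, mem_filter]
        unfold ltL
        tauto
      · rw [Finset.disjoint_left]
        intro y h1 h2
        simp only [mem_filter, hE] at h1 h2
        linarith [h1.2, h2.1.2]
    have hsplitR : ∀ x' ∈ E, (S.filter (fun y => ltR α β t y x')).card =
        dn S (g α β t) (g α β t x) + (E.filter (fun y => β y < β x')).card := by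
      intro x' hx'
      have hx'2 : g α β t x' = g α β t x := (mem_filter.mp hx').2
      unfold dn
      rw [← Finset.card_union_of_disjoint]
      · congr 1
        ext y
        rw [mem_filter, mem_union, mem_filter, mem_filter, mem_filter]
        unfold ltR
        rw [hx'2]
        tauto
      · rw [Finset.disjoint_left]
        intro y h1 h2
        simp only [mem_filter, hE] at h1 h2
        linarith [h1.2, h2.1.2]
    rw [hsplitL] at hc
    by_cases hsingle : ∀ y ∈ E, y = x
    · refine ⟨x, hx, hsx, ?_⟩
      rw [hsplitR x hxE]
      have h1 : E.filter (fun y => β x < β y) = ∅ := by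
        rw [Finset.filter_eq_empty_iff]
        intro y hy h2
        rw [hsingle y hy] at h2
        linarith
      have h2 : E.filter (fun y => β y < β x) = ∅ := by
        rw [Finset.filter_eq_empty_iff]
        intro y hy h2
        rw [hsingle y hy] at h2
        linarith
      rw [h2]
      rw [h1] at hc
      exact hc
    · push Not at hsingle
      obtain ⟨z, hzE, hzx⟩ := hsingle
      have hzt : g α β t x = g α β t z := ((mem_filter.mp hzE).2).symm
      have hnc := hcon t x hx z (hES z hzE) (Ne.symm hzx) hzt
      have hgap := hG t x hx z (hES z hzE) (Ne.symm hzx) hzt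
      have htot := up_dn_lev S (g α β t) (g α β t x)
      have hlev : lev S (g α β t) (g α β t x) = E.card := rfl
      set u := up S (g α β t) (g α β t x) with hu
      set d := dn S (g α β t) (g α β t x) with hd
      have hdL : d < L := by omega
      have huL : L ≤ u := by
        by_contra h1
        have := hnc (by omega)
        omega
      have hud : d + C < u := by omega
      -- j = L - 1 - d
      have hj : L - 1 - d < E.card := by
        have : (E.filter (fun y => β x < β y)).card < E.card := by
          apply Finset.card_lt_card
          rw [Finset.ssubset_iff_of_subset (Finset.filter_subset _ _)]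
          exact ⟨x, hxE, fun h => by have := (mem_filter.mp h).2; linarith⟩
        omega
      obtain ⟨x', hx'E, hx'c⟩ := exists_rank E β (fun a ha b hb h => hβ a (hES a ha) b (hES b hb) h)
        (L - 1 - d) hj
      refine ⟨x', hES x' hx'E, ?_, ?_⟩
      · by_contra hlt
        push Not at hlt
        have hxx : β x' < β x := by linarith
        have hdisj : Disjoint (insert x' (E.filter (fun y => β y < β x')))
            (insert x (E.filter (fun y => β x < β y))) := by
          rw [Finset.disjoint_left]
          intro y h1 h2
          simp only [mem_insert, mem_filter] at h1 h2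
          have h3 : β y ≤ β x' := by
            rcases h1 with h1 | h1
            · rw [h1]
            · exact h1.2.le
          have h4 : β x ≤ β y := by
            rcases h2 with h2 | h2
            · rw [h2]
            · exact h2.2.le
          linarith
        have hsub : (insert x' (E.filter (fun y => β y < β x'))) ∪
            (insert x (E.filter (fun y => β x < β y))) ⊆ E := by
          intro y hy
          simp only [mem_union, mem_insert, mem_filter] at hy
          rcases hy with (h1 | h1) | (h1 | h1)
          · rw [h1]; exact hx'E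
          · exact h1.1
          · rw [h1]; exact hxE
          · exact h1.1
        have hcc := Finset.card_le_card hsub
        rw [Finset.card_union_of_disjoint hdisj, Finset.card_insert_of_notMem,
          Finset.card_insert_of_notMem] at hcc
        · omega
        · intro h1
          have := (mem_filter.mp h1).2
          linarith
        · intro h1
          have := (mem_filter.mp h1).2
          linarith
      · rw [hsplitR x' hx'E, hx'c]
        omega
  -- far left and far right times
  obtain ⟨a, ha⟩ : ∃ a : ℝ, ∀ t ∈ T S α β, a < t := by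
    obtain ⟨m, hm⟩ := (T S α β).finite_toSet.bddBelow
    exact ⟨m - 1, fun t ht => by have := hm (Finset.mem_coe.mpr ht); linarith⟩
  obtain ⟨b, hb⟩ : ∃ b : ℝ, ∀ t ∈ T S α β, t < b := by
    obtain ⟨m, hm⟩ := (T S α β).finite_toSet.bddAbove
    exact ⟨m + 1, fun t ht => by have := hm (Finset.mem_coe.mpr ht); linarith⟩
  -- enlarge the interval so that a < b
  set a' := min a (b - 1) with ha'
  have ha'b : a' < b := lt_of_le_of_lt (min_le_right _ _) (by linarith)
  have ha'T : ∀ t ∈ T S α β, a' < t := fun t ht => lt_of_le_of_lt (min_le_left _ _) (ha t ht)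
  have tie : ∀ x ∈ S, ∀ y ∈ S, x ≠ y → ∃ t ∈ T S α β, g α β t x = g α β t y := by
    intro x hx y hy hxy
    have hb1 : β x - β y ≠ 0 := fun h => hxy (hβ x hx y hy (by linarith))
    have h2 : g α β ((α y - α x) / (β x - β y)) x = g α β ((α y - α x) / (β x - β y)) y := by
      unfold g
      have : (α y - α x) / (β x - β y) * (β x - β y) = α y - α x := by field_simp
      linarith
    exact ⟨_, mem_T hI hx hy hxy h2, h2⟩
  have orderA : ∀ x ∈ S, ∀ y ∈ S, ltR α β a' y x ↔ β x < β y := by
    intro x hx y hy
    by_cases hxy : x = y
    · subst hxy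
      unfold ltR
      simp
    · obtain ⟨t, ht, h1⟩ := tie x hx y hy hxy
      have h2 := ha'T t ht
      have hb1 : β x ≠ β y := fun h => hxy (hβ x hx y hy h)
      unfold ltR g at *
      constructor
      · rintro (h3 | ⟨h3, h4⟩)
        · by_contra hc
          push Not at hc
          nlinarith
        · exfalso
          nlinarith
      · intro h3
        left
        nlinarith
  have orderB : ∀ x ∈ S, ∀ y ∈ S, ltL α β b y x ↔ β y < β x := by
    intro x hx y hy
    by_cases hxy : x = y
    · subst hxy
      unfold ltL
      simp
    · obtain ⟨t, ht, h1⟩ := tie x hx y hy hxy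
      have h2 := hb t ht
      have hb1 : β x ≠ β y := fun h => hxy (hβ x hx y hy h)
      unfold ltL g at *
      constructor
      · rintro (h3 | ⟨h3, h4⟩)
        · by_contra hc
          push Not at hc
          nlinarith
        · exfalso
          nlinarith
      · intro h3
        left
        nlinarith
  -- start
  have hstart : PR S α β (L - 1) (β b0) a' := by
    obtain ⟨x, hx, hxc⟩ := exists_rank S β hβ (S.card - L) (by omega)
    refine ⟨x, hx, ?_, ?_⟩
    · by_contra hlt
      push Not at hlt
      have hss : S.filter (fun y => β y < β x) ⊂ S.filter (fun y => β y < β b0) := by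
        rw [Finset.ssubset_iff_of_subset]
        · exact ⟨x, mem_filter.mpr ⟨hx, hlt⟩, fun h => by have := (mem_filter.mp h).2; linarith⟩
        · intro y hy
          obtain ⟨h1, h2⟩ := mem_filter.mp hy
          exact mem_filter.mpr ⟨h1, by linarith⟩
      have := Finset.card_lt_card hss
      omega
    · have h1 : S.filter (fun y => ltR α β a' y x) = S.filter (fun y => β x < β y) :=
        Finset.filter_congr (fun y hy => orderA x hx y hy)
      rw [h1]
      have h2 := up_dn_lev S β (β x)
      have h3 : lev S β (β x) = 1 := by
        unfold lev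
        rw [Finset.card_eq_one]
        refine ⟨x, ?_⟩
        ext y
        rw [mem_filter, mem_singleton]
        constructor
        · rintro ⟨h4, h5⟩; exact hβ y h4 x hx h5
        · rintro rfl; exact ⟨hx, rfl⟩
      unfold up dn at h2
      omega
  have hend := sweep hβ hstep _ a' b ha'b le_rfl hstart
  obtain ⟨x, hx, hsx, hc⟩ := hend
  have h1 : S.filter (fun y => ltL α β b y x) = S.filter (fun y => β y < β x) :=
    Finset.filter_congr (fun y hy => orderB x hx y hy)
  rw [h1] at hc
  have h2 : S.filter (fun y => β y < β b0) ⊆ S.filter (fun y => β y < β x) := by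
    intro y hy
    obtain ⟨h3, h4⟩ := mem_filter.mp hy
    exact mem_filter.mpr ⟨h3, by linarith⟩
  have := Finset.card_le_card h2
  omega

end Pool.Agent.H410.Sector
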