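import Mathlib

set_option autoImplicit false

set_option linter.unusedSectionVars false

namespace Pool.Agent.H410.Sector

open Finset

variable {V : Type*} [DecidableEq V]

/-- the affine function attached to `x`, at time `t` -/
def g (α β : V → ℝ) (t : ℝ) (x : V) : ℝ := α x + t * β x

/-- number of elements of `A` above the level `c` -/
noncomputable def up (A : Finset V) (f : V → ℝ) (c : ℝ) : ℕ := (A.filter (fun y => c < f y)).card

/-- number of elements of `A` below the level `c` -/
noncomputable def dn (A : Finset V) (f : V → ℝ) (c : ℝ) : ℕ := (A.filter (fun y => f y < c)).card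

/-- number of elements of `A` at the level `c` -/
noncomputable def lev (A : Finset V) (f : V → ℝ) (c : ℝ) : ℕ := (A.filter (fun y => f y = c)).card

lemma up_dn_lev (A : Finset V) (f : V → ℝ) (c : ℝ) : up A f c + dn A f c + lev A f c = A.card := by
  classical
  unfold up dn lev
  rw [← Finset.card_union_of_disjoint, ← Finset.card_union_of_disjoint]
  · congr 1
    ext y
    simp only [mem_union, mem_filter]
    constructor
    · rintro ((h | h) | h) <;> exact h.1
    · intro h
      rcases lt_trichotomy (f y) c with h1 | h1 | h1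
      · exact Or.inl (Or.inr ⟨h, h1⟩)
      · exact Or.inr ⟨h, h1⟩
      · exact Or.inl (Or.inl ⟨h, h1⟩)
  · rw [Finset.disjoint_left]
    intro y hy hy'
    simp only [mem_union, mem_filter] at hy hy'
    rcases hy with h | h
    · linarith [h.2, hy'.2]
    · linarith [h.2, hy'.2]
  · rw [Finset.disjoint_left]
    intro y hy hy'
    simp only [mem_filter] at hy hy'
    linarith [hy.2, hy'.2]

lemma cross {α β : V → ℝ} {x y : V} {s t : ℝ} (hs : g α β s x < g α β s y)
    (ht : g α β t y ≤ g α β t x) :
    ∃ r, g α β r x = g α β r y ∧ ((t ≤ r ∧ r < s) ∨ (s < r ∧ r ≤ t)) := by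
  unfold g at *
  have hb : β y - β x ≠ 0 := by
    intro h
    have : β y = β x := by linarith
    rw [this] at hs ht
    linarith
  refine ⟨-(α y - α x) / (β y - β x), ?_, ?_⟩
  · have : -(α y - α x) / (β y - β x) * (β y - β x) = -(α y - α x) := by field_simp
    linarith
  · rcases lt_or_gt_of_ne hb with h | h
    · right
      constructor
      · rw [lt_div_iff_of_neg h]; linarith
      · rw [div_le_iff_of_neg h]; linarith
    · left
      constructor
      · rw [le_div_iff₀ h]; linarith
      · rw [div_lt_iff₀ h]; linarith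

lemma stay_lt {α β : V → ℝ} {x y : V} {a b s : ℝ}
    (h : ∀ r, a < r → r < b → g α β r x ≠ g α β r y) (hs1 : a < s) (hs2 : s < b)
    (hs : g α β s x < g α β s y) (t : ℝ) (ht1 : a < t) (ht2 : t < b) :
    g α β t x < g α β t y := by
  by_contra hc
  push Not at hc
  obtain ⟨r, hr, hr'⟩ := cross hs hc
  rcases hr' with hr' | hr'
  · exact h r (by linarith) (by linarith) hr
  · exact h r (by linarith) (by linarith) hr

lemma stay_le {α β : V → ℝ} {x y : V} {a b s : ℝ}
    (h : ∀ r, a < r → r < b → g α β r x ≠ g α β r y) (hs1 : a < s) (hs2 : s < b)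
    (hs : g α β s x < g α β s y) (t : ℝ) (ht1 : a ≤ t) (ht2 : t ≤ b) :
    g α β t x ≤ g α β t y := by
  by_contra hc
  push Not at hc
  obtain ⟨r, hr, hr'⟩ := cross hs hc.le
  have hrt : r ≠ t := by
    rintro rfl
    linarith
  rcases hr' with hr' | hr'
  · have : t < r := lt_of_le_of_ne hr'.1 (Ne.symm hrt)
    exact h r (by linarith) (by linarith) hr
  · have : r < t := lt_of_le_of_ne hr'.2 hrt
    exact h r (by linarith) (by linarith) hr

/-- tie times -/
noncomputable def T (A : Finset V) (α β : V → ℝ) : Finset ℝ :=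
  A.offDiag.image (fun z => (α z.2 - α z.1) / (β z.1 - β z.2))

/-- no two elements of `A` have the same affine function -/
def Inj (A : Finset V) (α β : V → ℝ) : Prop :=
  ∀ x ∈ A, ∀ y ∈ A, α x = α y → β x = β y → x = y

lemma ne_slope {A : Finset V} {α β : V → ℝ} (hI : Inj A α β) {x y : V} (hx : x ∈ A) (hy : y ∈ A)
    (hne : x ≠ y) {t : ℝ} (h : g α β t x = g α β t y) : β x ≠ β y := by
  intro hb
  apply hne
  apply hI x hx y hy _ hb
  unfold g at h
  rw [hb] at h
  linarith

lemma mem_T {A : Finset V} {α β : V → ℝ} (hI : Inj A α β) {x y : V} (hx : x ∈ A) (hy : y ∈ A)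
    (hne : x ≠ y) {t : ℝ} (h : g α β t x = g α β t y) : t ∈ T A α β := by
  have hb := ne_slope hI hx hy hne h
  unfold T
  rw [Finset.mem_image]
  refine ⟨(x, y), ?_, ?_⟩
  · rw [Finset.mem_offDiag]; exact ⟨hx, hy, hne⟩
  · have : β x - β y ≠ 0 := sub_ne_zero.mpr hb
    unfold g at h
    simp only
    rw [div_eq_iff this]
    linarith

lemma card_T (A : Finset V) (α β : V → ℝ) : (T A α β).card ≤ A.card * A.card - A.card := by
  unfold T
  refine le_trans Finset.card_image_le ?_
  rw [Finset.offDiag_card]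

lemma two_agree {A : Finset V} {α β : V → ℝ} (hI : Inj A α β) {x y : V} (hx : x ∈ A) (hy : y ∈ A)
    {s t : ℝ} (hst : s < t) (h1 : g α β s x = g α β s y) (h2 : g α β t x = g α β t y) : x = y := by
  by_contra hne
  have hb := ne_slope hI hx hy hne h1
  unfold g at h1 h2
  have : (t - s) * (β x - β y) = 0 := by linarith
  rcases mul_eq_zero.mp this with h | h
  · linarith
  · exact hb (by linarith)

/-- the gap condition: at every tie, the numbers of elements above and below differ by more
than `C` -/
def Gap (A : Finset V) (U D C : ℕ) (α β : V → ℝ) : Prop :=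
  ∀ t, ∀ x ∈ A, ∀ y ∈ A, x ≠ y → g α β t x = g α β t y →
    (U + up A (g α β t) (g α β t x) + C < D + dn A (g α β t) (g α β t x)) ∨
    (D + dn A (g α β t) (g α β t x) + C < U + up A (g α β t) (g α β t x))

/-- sector data: `p` is alone on `(a,b)`, has `lam + m` elements above it there, and at most `lam`
elements above it at the two ends. -/
structure Sec (A : Finset V) (U : ℕ) (α β : V → ℝ) (lam m : ℕ) (p : V) (a b : ℝ) : Prop where
  hp : p ∈ A
  hab : a < b
  alone : ∀ t, a < t → t < b → ∀ x ∈ A, x ≠ p → g α β t x ≠ g α β t p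
  hu : ∀ t, a < t → t < b → U + up A (g α β t) (g α β t p) = lam + m
  h1 : U + up A (g α β a) (g α β a p) ≤ lam
  h2 : U + up A (g α β b) (g α β b p) ≤ lam

lemma first {A : Finset V} {U D C : ℕ} {α β : V → ℝ} (hI : Inj A α β) (hG : Gap A U D C α β)
    {lam m : ℕ} (hlam : U + D + A.card ≤ 2 * lam + C + 2)
    (hup : 2 * (lam + (m + 1)) ≤ U + D + A.card + C + 2)
    {p : V} {a b : ℝ} (hS : Sec A U α β lam (m + 1) p a b) :
    ∃ q s, a < s ∧ s < b ∧ Sec A U α β lam m q a s ∧ (∃ y ∈ A, y ≠ q ∧ g α β s y = g α β s q) ∧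
      (∀ t, a < t → t < s → g α β t p < g α β t q) ∧
      (∀ t, a < t → t < s → ∀ y ∈ A, g α β t p < g α β t y → g α β t q ≤ g α β t y) := by
  classical
  obtain ⟨hp, hab, alone, hu, h1, h2⟩ := hS
  set tm := (a + b) / 2 with htm
  have htm1 : a < tm := by rw [htm]; linarith
  have htm2 : tm < b := by rw [htm]; linarith
  set Up := A.filter (fun y => g α β tm p < g α β tm y) with hUp
  have alone' : ∀ x ∈ A, x ≠ p → ∀ r, a < r → r < b → g α β r p ≠ g α β r x := by
    intro x hx hxp r h3 h4 h5
    exact alone r h3 h4 x hx hxp h5.symm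
  have hUpA : ∀ y ∈ Up, y ∈ A := fun y hy => (mem_filter.mp hy).1
  have hUpp : ∀ y ∈ Up, y ≠ p := by
    rintro y hy rfl
    have := (mem_filter.mp hy).2
    linarith
  have hUplt : ∀ y ∈ Up, ∀ t, a < t → t < b → g α β t p < g α β t y := by
    intro y hy t h3 h4
    exact stay_lt (alone' y (hUpA y hy) (hUpp y hy)) htm1 htm2 (mem_filter.mp hy).2 t h3 h4
  have hUple : ∀ y ∈ Up, ∀ t, a ≤ t → t ≤ b → g α β t p ≤ g α β t y := by
    intro y hy t h3 h4
    exact stay_le (alone' y (hUpA y hy) (hUpp y hy)) htm1 htm2 (mem_filter.mp hy).2 t h3 h4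
  have hnUp : ∀ y ∈ A, y ∉ Up → y ≠ p → ∀ t, a < t → t < b → g α β t y < g α β t p := by
    intro y hy hyU hyp t h3 h4
    have h5 : g α β tm y < g α β tm p := by
      have h6 : ¬ g α β tm p < g α β tm y := fun h => hyU (mem_filter.mpr ⟨hy, h⟩)
      push Not at h6
      exact lt_of_le_of_ne h6 (alone tm htm1 htm2 y hy hyp)
    exact stay_lt (fun r h7 h8 => alone r h7 h8 y hy hyp) htm1 htm2 h5 t h3 h4
  have hupt : ∀ t, a < t → t < b → A.filter (fun y => g α β t p < g α β t y) = Up := by
    intro t h3 h4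
    ext y
    constructor
    · intro hy
      have hyA := (mem_filter.mp hy).1
      have hy2 := (mem_filter.mp hy).2
      by_contra hyU
      by_cases hyp : y = p
      · subst hyp; linarith
      · have := hnUp y hyA hyU hyp t h3 h4
        linarith
    · intro hy
      exact mem_filter.mpr ⟨hUpA y hy, hUplt y hy t h3 h4⟩
  have hcard : U + Up.card = lam + (m + 1) := by
    have := hu tm htm1 htm2
    unfold up at this
    rw [hupt tm htm1 htm2] at this
    exact this
  -- an element of `Up` meeting `p` at a given end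
  have hend : ∀ t, a ≤ t → t ≤ b → U + up A (g α β t) (g α β t p) ≤ lam →
      ∃ y ∈ Up, g α β t y = g α β t p := by
    intro t h3 h4 h5
    by_contra hc
    push Not at hc
    have : Up ⊆ A.filter (fun y => g α β t p < g α β t y) := by
      intro y hy
      exact mem_filter.mpr ⟨hUpA y hy, lt_of_le_of_ne (hUple y hy t h3 h4) (Ne.symm (hc y hy))⟩
    have := Finset.card_le_card this
    unfold up at h5
    omega
  obtain ⟨y0, hy0U, hy0⟩ := hend a le_rfl hab.le h1
  obtain ⟨y1, hy1U, hy1⟩ := hend b hab.le le_rfl h2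
  -- the lowest element just after `a`
  have hZ : (Up.filter (fun y => g α β a y = g α β a p)).Nonempty := ⟨y0, mem_filter.mpr ⟨hy0U, hy0⟩⟩
  obtain ⟨q, hqZ, hqmin⟩ := Finset.exists_min_image _ β hZ
  have hqU : q ∈ Up := (mem_filter.mp hqZ).1
  have hqa : g α β a q = g α β a p := (mem_filter.mp hqZ).2
  have hqA := hUpA q hqU
  have hqp := hUpp q hqU
  -- right after `a`, `q` is below every other element of `Up`, until they meet
  have hright : ∀ y ∈ Up, y ≠ q → ∀ t, a < t → t ≤ b → (∀ r, a < r → r < t → g α β r q ≠ g α β r y) →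
      g α β t q ≤ g α β t y := by
    intro y hy hyq t h3 h4 h5
    rcases lt_or_eq_of_le (hUple y hy a le_rfl hab.le) with h6 | h6
    · by_contra hc
      push Not at hc
      have h7 : g α β a q < g α β a y := by rw [hqa]; exact h6
      obtain ⟨r, hr, hr'⟩ := cross h7 hc.le
      have hrt : r ≠ t := by rintro rfl; linarith
      rcases hr' with hr' | hr'
      · linarith
      · exact h5 r hr'.1 (lt_of_le_of_ne hr'.2 hrt) hr
    · have h7 : g α β a y = g α β a q := by rw [hqa]; exact h6.symm
      have h8 : β q ≤ β y := hqmin y (mem_filter.mpr ⟨hy, h6.symm⟩)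
      unfold g at h7 ⊢
      nlinarith
  have hright' : ∀ y ∈ Up, y ≠ q → ∀ t, a < t → t ≤ b → (∀ r, a < r → r ≤ t → g α β r q ≠ g α β r y) →
      g α β t q < g α β t y := by
    intro y hy hyq t h3 h4 h5
    exact lt_of_le_of_ne (hright y hy hyq t h3 h4 (fun r h6 h7 => h5 r h6 h7.le)) (h5 t h3 le_rfl)
  -- tie times of `q`
  set W := (T A α β).filter (fun s => a < s ∧ s < b ∧ ∃ y ∈ Up, y ≠ q ∧ g α β s y = g α β s q) with hW
  have hWne : W.Nonempty := by
    by_contra hWe
    rw [Finset.not_nonempty_iff_eq_empty] at hWe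
    have hno : ∀ y ∈ Up, y ≠ q → ∀ r, a < r → r < b → g α β r q ≠ g α β r y := by
      intro y hy hyq r h3 h4 h5
      have : r ∈ W := mem_filter.mpr ⟨mem_T hI hqA (hUpA y hy) (Ne.symm hyq) h5, h3, h4, y, hy, hyq, h5.symm⟩
      rw [hWe] at this
      exact absurd this (Finset.notMem_empty r)
    have hqb : g α β b q = g α β b p := by
      by_cases h3 : y1 = q
      · rw [← h3]; exact hy1
      · have h4 := hright y1 hy1U h3 b hab le_rfl (hno y1 hy1U h3)
        have h5 := hUple q hqU b hab.le le_rfl
        linarith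
    exact hqp (two_agree hI hqA hp hab hqa hqb)
  obtain ⟨s, hsW, hsmin⟩ := Finset.exists_min_image W id hWne
  simp only [id] at hsmin
  obtain ⟨-, has, hsb, y2, hy2U, hy2q, hy2⟩ := mem_filter.mp hsW
  have hno : ∀ y ∈ Up, y ≠ q → ∀ r, a < r → r < s → g α β r q ≠ g α β r y := by
    intro y hy hyq r h3 h4 h5
    have : r ∈ W := mem_filter.mpr ⟨mem_T hI hqA (hUpA y hy) (Ne.symm hyq) h5, h3, by linarith, y, hy, hyq, h5.symm⟩
    have := hsmin r this
    linarith
  have hlow : ∀ y ∈ Up, y ≠ q → ∀ t, a < t → t < s → g α β t q < g α β t y := by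
    intro y hy hyq t h3 h4
    exact hright' y hy hyq t h3 (by linarith) (fun r h5 h6 => hno y hy hyq r h5 (by linarith))
  have hlows : ∀ y ∈ Up, g α β s q ≤ g α β s y := by
    intro y hy
    by_cases hyq : y = q
    · rw [hyq]
    · exact hright y hy hyq s has hsb.le (hno y hy hyq)
  -- the elements above `q` on `(a,s)`
  have hupq : ∀ t, a < t → t < s → A.filter (fun y => g α β t q < g α β t y) = Up.erase q := by
    intro t h3 h4
    ext y
    rw [mem_filter, mem_erase]
    constructor
    · rintro ⟨hyA, hy2⟩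
      have h5 := hUplt q hqU t h3 (by linarith)
      have h6 : y ∈ Up := by
        by_contra hyU
        by_cases hyp : y = p
        · subst hyp; linarith
        · have := hnUp y hyA hyU hyp t h3 (by linarith)
          linarith
      exact ⟨fun h => by subst h; linarith, h6⟩
    · rintro ⟨hyq, hyU⟩
      exact ⟨hUpA y hyU, hlow y hyU hyq t h3 h4⟩
  have hcq : (Up.erase q).card = Up.card - 1 := Finset.card_erase_of_mem hqU
  have hUpos : 0 < Up.card := Finset.card_pos.mpr ⟨q, hqU⟩
  -- the tie at `s`
  have hdn : dn A (g α β s) (g α β s q) = A.card - Up.card := by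
    unfold dn
    have : A.filter (fun y => g α β s y < g α β s q) = A \ Up := by
      ext y
      rw [mem_filter, mem_sdiff]
      constructor
      · rintro ⟨hyA, hy3⟩
        refine ⟨hyA, fun hyU => ?_⟩
        have := hlows y hyU
        linarith
      · rintro ⟨hyA, hyU⟩
        refine ⟨hyA, ?_⟩
        have h5 := hUplt q hqU s has hsb
        by_cases hyp : y = p
        · subst hyp; exact h5
        · have := hnUp y hyA hyU hyp s has hsb
          linarith
    rw [this, Finset.card_sdiff_of_subset (Finset.filter_subset _ _)]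
  have hupS : up A (g α β s) (g α β s q) + 2 ≤ Up.card := by
    unfold up
    have h3 : A.filter (fun y => g α β s q < g α β s y) ⊆ (Up.erase q).erase y2 := by
      intro y hy
      obtain ⟨hyA, hy3⟩ := mem_filter.mp hy
      have h5 := hUplt q hqU s has hsb
      rw [mem_erase, mem_erase]
      refine ⟨fun h => by subst h; linarith, fun h => by subst h; linarith, ?_⟩
      by_contra hyU
      by_cases hyp : y = p
      · subst hyp; linarith
      · have := hnUp y hyA hyU hyp s has hsb
        linarith
    have h4 := Finset.card_le_card h3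
    have h5 : ((Up.erase q).erase y2).card = (Up.erase q).card - 1 :=
      Finset.card_erase_of_mem (mem_erase.mpr ⟨hy2q, hy2U⟩)
    have h6 : 0 < (Up.erase q).card := Finset.card_pos.mpr ⟨y2, mem_erase.mpr ⟨hy2q, hy2U⟩⟩
    omega
  have hUpleA : Up.card ≤ A.card := Finset.card_le_card (Finset.filter_subset _ _)
  have hlast : U + up A (g α β s) (g α β s q) ≤ lam := by
    rcases hG s q hqA y2 (hUpA y2 hy2U) (Ne.symm hy2q) hy2.symm with h | h
    · rw [hdn] at h
      omega
    · rw [hdn] at h
      omega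
  refine ⟨q, s, has, hsb, ⟨hqA, has, ?_, ?_, ?_, hlast⟩, ⟨y2, hUpA y2 hy2U, hy2q, hy2⟩, ?_, ?_⟩
  · intro t h3 h4 x hx hxq
    have h5 := hUplt q hqU t h3 (by linarith)
    by_cases hxU : x ∈ Up
    · exact (hlow x hxU hxq t h3 h4).ne'
    · by_cases hxp : x = p
      · subst hxp; exact h5.ne
      · have := hnUp x hx hxU hxp t h3 (by linarith)
        intro h6
        linarith
  · intro t h3 h4
    unfold up
    rw [hupq t h3 h4, hcq]
    omega
  · rw [hqa]; exact h1
  · intro t h3 h4
    exact hUplt q hqU t h3 (by linarith)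
  · intro t h3 h4 y hy h5
    have hyU : y ∈ Up := by
      rw [← hupt t h3 (by linarith)]
      exact mem_filter.mpr ⟨hy, h5⟩
    by_cases hyq : y = q
    · rw [hyq]
    · exact (hlow y hyU hyq t h3 h4).le

lemma g_neg (α β : V → ℝ) (t : ℝ) (x : V) : g α (fun y => -β y) t x = g α β (-t) x := by
  unfold g; ring

lemma g_neg' (α β : V → ℝ) (t : ℝ) : g α (fun y => -β y) t = g α β (-t) := by
  funext x; exact g_neg α β t x

lemma Inj.rev {A : Finset V} {α β : V → ℝ} (hI : Inj A α β) : Inj A α (fun y => -β y) := by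
  intro x hx y hy h1 h2
  exact hI x hx y hy h1 (by linarith)

lemma Gap.rev {A : Finset V} {U D C : ℕ} {α β : V → ℝ} (hG : Gap A U D C α β) :
    Gap A U D C α (fun y => -β y) := by
  intro t x hx y hy hne h
  rw [g_neg'] at h ⊢
  exact hG (-t) x hx y hy hne h

lemma Sec.rev {A : Finset V} {U : ℕ} {α β : V → ℝ} {lam m : ℕ} {p : V} {a b : ℝ}
    (hS : Sec A U α β lam m p a b) : Sec A U α (fun y => -β y) lam m p (-b) (-a) := by
  obtain ⟨hp, hab, alone, hu, h1, h2⟩ := hS
  refine ⟨hp, by linarith, ?_, ?_, ?_, ?_⟩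
  · intro t h3 h4
    rw [g_neg']
    exact alone (-t) (by linarith) (by linarith)
  · intro t h3 h4
    rw [g_neg']
    exact hu (-t) (by linarith) (by linarith)
  · rw [g_neg', neg_neg]; exact h2
  · rw [g_neg', neg_neg]; exact h1

lemma Sec.rev' {A : Finset V} {U : ℕ} {α β : V → ℝ} {lam m : ℕ} {p : V} {a b : ℝ}
    (hS : Sec A U α (fun y => -β y) lam m p (-b) (-a)) : Sec A U α β lam m p a b := by
  have h := hS.rev
  simp only [neg_neg] at h
  exact h

lemma last {A : Finset V} {U D C : ℕ} {α β : V → ℝ} (hI : Inj A α β) (hG : Gap A U D C α β)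
    {lam m : ℕ} (hlam : U + D + A.card ≤ 2 * lam + C + 2)
    (hup : 2 * (lam + (m + 1)) ≤ U + D + A.card + C + 2)
    {p : V} {a b : ℝ} (hS : Sec A U α β lam (m + 1) p a b) :
    ∃ q s, a < s ∧ s < b ∧ Sec A U α β lam m q s b ∧ (∃ y ∈ A, y ≠ q ∧ g α β s y = g α β s q) ∧
      (∀ t, s < t → t < b → g α β t p < g α β t q) ∧
      (∀ t, s < t → t < b → ∀ y ∈ A, g α β t p < g α β t y → g α β t q ≤ g α β t y) := by
  obtain ⟨q, s, h1, h2, h3, ⟨y, hy, hyq, hy2⟩, h5, h6⟩ := first hI.rev hG.rev hlam hup hS.rev
  refine ⟨q, -s, by linarith, by linarith, ?_, ⟨y, hy, hyq, ?_⟩, ?_, ?_⟩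
  · apply Sec.rev'
    rw [neg_neg]
    exact h3
  · rw [g_neg'] at hy2; exact hy2
  · intro t h7 h8
    have := h5 (-t) (by linarith) (by linarith)
    rw [g_neg', neg_neg] at this
    exact this
  · intro t h7 h8
    have := h6 (-t) (by linarith) (by linarith)
    rw [g_neg', neg_neg] at this
    exact this

/-- **Sector lemma.** -/
theorem sector {A : Finset V} {U D C : ℕ} {α β : V → ℝ} (hI : Inj A α β) (hG : Gap A U D C α β)
    {lam : ℕ} (hlam : U + D + A.card ≤ 2 * lam + C + 2) :
    ∀ m : ℕ, 2 * (lam + m) ≤ U + D + A.card + C + 2 →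
    ∀ (p : V) (a b : ℝ), Sec A U α β lam m p a b →
      2 ^ m ≤ ((T A α β).filter (fun t => a < t ∧ t < b)).card + 1 := by
  intro m
  induction m with
  | zero => intro _ p a b _; simp
  | succ m ih =>
    intro hup p a b hS
    obtain ⟨q, s, has, hsb, hS1, ⟨y, hy, hyq, hty⟩, hpq, hlow⟩ := first hI hG hlam hup hS
    obtain ⟨q', s', has', hsb', hS2, ⟨y', hy', hyq', hty'⟩, hpq', hlow'⟩ := last hI hG hlam hup hS
    have hup' : 2 * (lam + m) ≤ U + D + A.card + C + 2 := by omega
    have i1 := ih hup' q a s hS1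
    have i2 := ih hup' q' s' b hS2
    have hss : s ≤ s' := by
      by_contra hc
      push Not at hc
      set t := (s + s') / 2 with ht
      have h1 : t < s := by rw [ht]; linarith
      have h2 : s' < t := by rw [ht]; linarith
      have h3 := hlow t (by linarith) h1 q' hS2.hp (hpq' t h2 (by linarith))
      have h4 := hlow' t h2 (by linarith) q hS1.hp (hpq t (by linarith) h1)
      have h5 : q' = q := by
        by_contra hne
        exact hS1.alone t (by linarith) h1 q' hS2.hp hne (le_antisymm h4 h3)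
      subst h5
      exact hS2.alone s hc hsb y hy hyq hty
    have hsT : s ∈ T A α β := mem_T hI hy hS1.hp hyq hty
    have hsub : ((T A α β).filter (fun t => a < t ∧ t < s)) ∪ {s} ∪
        ((T A α β).filter (fun t => s' < t ∧ t < b)) ⊆ (T A α β).filter (fun t => a < t ∧ t < b) := by
      intro t ht
      simp only [mem_union, mem_filter, mem_singleton] at ht ⊢
      rcases ht with (⟨h1, h2, h3⟩ | h1) | ⟨h1, h2, h3⟩
      · exact ⟨h1, h2, by linarith⟩
      · subst h1; exact ⟨hsT, has, hsb⟩
      · exact ⟨h1, by linarith, h3⟩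
    have hcard := Finset.card_le_card hsub
    rw [Finset.card_union_of_disjoint, Finset.card_union_of_disjoint] at hcard
    · rw [Finset.card_singleton] at hcard
      rw [pow_succ]
      omega
    · rw [Finset.disjoint_left]
      intro t h1 h2
      simp only [mem_filter, mem_singleton] at h1 h2
      linarith [h1.2.2]
    · rw [Finset.disjoint_left]
      intro t h1 h2
      simp only [mem_union, mem_filter, mem_singleton] at h1 h2
      rcases h1 with h1 | h1
      · linarith [h1.2.2, h2.2.1]
      · linarith [h2.2.1]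

/-- the downward form, from the upward form for the negated functions -/
lemma g_negneg (α β : V → ℝ) (t : ℝ) (x : V) :
    g (fun y => -α y) (fun y => -β y) t x = - g α β t x := by
  unfold g; ring

lemma up_neg (A : Finset V) (α β : V → ℝ) (t : ℝ) (x : V) :
    up A (g (fun y => -α y) (fun y => -β y) t) (g (fun y => -α y) (fun y => -β y) t x) =
      dn A (g α β t) (g α β t x) := by
  unfold up dn
  congr 1
  ext y
  simp only [mem_filter, g_negneg, neg_lt_neg_iff]

lemma dn_neg (A : Finset V) (α β : V → ℝ) (t : ℝ) (x : V) :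
    dn A (g (fun y => -α y) (fun y => -β y) t) (g (fun y => -α y) (fun y => -β y) t x) =
      up A (g α β t) (g α β t x) := by
  unfold up dn
  congr 1
  ext y
  simp only [mem_filter, g_negneg, neg_lt_neg_iff]

lemma Inj.neg {A : Finset V} {α β : V → ℝ} (hI : Inj A α β) :
    Inj A (fun y => -α y) (fun y => -β y) := by
  intro x hx y hy h1 h2
  exact hI x hx y hy (by linarith) (by linarith)

lemma Gap.neg {A : Finset V} {U D C : ℕ} {α β : V → ℝ} (hG : Gap A U D C α β) :
    Gap A D U C (fun y => -α y) (fun y => -β y) := by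
  intro t x hx y hy hne h
  rw [up_neg, dn_neg]
  rw [g_negneg, g_negneg] at h
  exact (hG t x hx y hy hne (by linarith)).symm

lemma T_neg (A : Finset V) (α β : V → ℝ) : T A (fun y => -α y) (fun y => -β y) = T A α β := by
  unfold T
  apply Finset.image_congr
  intro z _
  simp only
  rw [show -α z.2 - -α z.1 = -(α z.2 - α z.1) by ring,
    show -β z.1 - -β z.2 = -(β z.1 - β z.2) by ring, neg_div_neg_eq]

end Pool.Agent.H410.Sector
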