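import Pool.Agent.H410.Covering

set_option autoImplicit false
set_option linter.unusedSectionVars false

namespace Pool.Agent.H410.Sector

open Finset

/-- the standard bilinear form on three-space -/
def ip (v x : Fin 3 → ℝ) : ℝ := v 0 * x 0 + v 1 * x 1 + v 2 * x 2

lemma ip_add (v w x : Fin 3 → ℝ) : ip (v + w) x = ip v x + ip w x := by
  simp only [ip, Pi.add_apply]; ring

lemma ip_sub (v w x : Fin 3 → ℝ) : ip (v - w) x = ip v x - ip w x := by
  simp only [ip, Pi.sub_apply]; ring

lemma ip_smul (s : ℝ) (v x : Fin 3 → ℝ) : ip (s • v) x = s * ip v x := by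
  simp only [ip, Pi.smul_apply, smul_eq_mul]; ring

lemma ip_add_right (v x y : Fin 3 → ℝ) : ip v (x + y) = ip v x + ip v y := by
  simp only [ip, Pi.add_apply]; ring

lemma ip_sub_right (v x y : Fin 3 → ℝ) : ip v (x - y) = ip v x - ip v y := by
  simp only [ip, Pi.sub_apply]; ring

lemma ip_smul_right (s : ℝ) (v x : Fin 3 → ℝ) : ip v (s • x) = s * ip v x := by
  simp only [ip, Pi.smul_apply, smul_eq_mul]; ring

lemma ip_self_pos {v : Fin 3 → ℝ} (hv : v ≠ 0) : 0 < ip v v := by
  by_contra hc
  push Not at hc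
  apply hv
  unfold ip at hc
  have h0 : v 0 = 0 := by nlinarith [mul_self_nonneg (v 0), mul_self_nonneg (v 1), mul_self_nonneg (v 2)]
  have h1 : v 1 = 0 := by nlinarith [mul_self_nonneg (v 0), mul_self_nonneg (v 1), mul_self_nonneg (v 2)]
  have h2 : v 2 = 0 := by nlinarith [mul_self_nonneg (v 0), mul_self_nonneg (v 1), mul_self_nonneg (v 2)]
  funext i
  fin_cases i
  · exact h0
  · exact h1
  · exact h2

lemma ip_zero_left (x : Fin 3 → ℝ) : ip 0 x = 0 := by
  simp [ip]

lemma exists_generic (F : Finset (Fin 3 → ℝ)) (hF : ∀ u ∈ F, u ≠ 0) :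
    ∃ w : Fin 3 → ℝ, w 0 = 1 ∧ ∀ u ∈ F, ip w u ≠ 0 := by
  classical
  by_contra hc
  push Not at hc
  set P : (Fin 3 → ℝ) → Polynomial ℝ := fun u =>
    Polynomial.C (u 0) + Polynomial.C (u 1) * Polynomial.X + Polynomial.C (u 2) * Polynomial.X ^ 2
    with hP
  have h1 : ∀ t : ℝ, Polynomial.eval t (∏ u ∈ F, P u) = 0 := by
    intro t
    obtain ⟨u, hu, h⟩ := hc ![1, t, t ^ 2] (by simp)
    rw [Polynomial.eval_prod]
    apply Finset.prod_eq_zero hu
    simp only [ip, Matrix.cons_val_zero, Matrix.cons_val_one, Matrix.cons_val] at h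
    simp only [hP, Polynomial.eval_add, Polynomial.eval_mul, Polynomial.eval_C, Polynomial.eval_X,
      Polynomial.eval_pow]
    linarith
  have h2 : (∏ u ∈ F, P u) = 0 := Polynomial.funext (fun t => by rw [h1 t, Polynomial.eval_zero])
  rw [Finset.prod_eq_zero_iff] at h2
  obtain ⟨u, hu, h3⟩ := h2
  apply hF u hu
  have c0 := congrArg (fun p => Polynomial.coeff p 0) h3
  have c1 := congrArg (fun p => Polynomial.coeff p 1) h3
  have c2 := congrArg (fun p => Polynomial.coeff p 2) h3
  simp [hP, Polynomial.coeff_X, Polynomial.coeff_C, Polynomial.coeff_X_pow] at c0 c1 c2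
  funext i
  fin_cases i
  · exact c0
  · exact c1
  · exact c2

/-- all planes through two distinct points have imbalance more than `C` -/
def GapS (S : Finset (Fin 3 → ℝ)) (C : ℕ) : Prop :=
  ∀ v : Fin 3 → ℝ, v ≠ 0 → ∀ p ∈ S, ∀ q ∈ S, p ≠ q → ip v p = ip v q →
    (up S (ip v) (ip v p) + C < dn S (ip v) (ip v p)) ∨
    (dn S (ip v) (ip v p) + C < up S (ip v) (ip v p))

lemma split_card {V : Type*} [DecidableEq V] {S A : Finset V} (hAS : A ⊆ S) {P Q R : V → Prop}
    [DecidablePred P] [DecidablePred Q] [DecidablePred R]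
    (h1 : ∀ z ∈ S, z ∉ A → (P z ↔ Q z)) (h2 : ∀ z ∈ A, ¬ Q z) (h3 : ∀ z ∈ A, (P z ↔ R z)) :
    (S.filter P).card = (S.filter Q).card + (A.filter R).card := by
  rw [← Finset.card_union_of_disjoint]
  · congr 1
    ext z
    simp only [mem_filter, mem_union]
    constructor
    · rintro ⟨hz, hP⟩
      by_cases hzA : z ∈ A
      · exact Or.inr ⟨hzA, (h3 z hzA).mp hP⟩
      · exact Or.inl ⟨hz, (h1 z hz hzA).mp hP⟩
    · rintro (⟨hz, hQ⟩ | ⟨hz, hR⟩)
      · have hzA : z ∉ A := fun h => h2 z h hQ
        exact ⟨hz, (h1 z hz hzA).mpr hQ⟩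
      · exact ⟨hAS hz, (h3 z hz).mpr hR⟩
  · rw [Finset.disjoint_left]
    intro z h4 h5
    exact h2 z (mem_filter.mp h5).1 (mem_filter.mp h4).2

lemma exists_small {V : Type*} [DecidableEq V] (F : Finset V) (a b : V → ℝ) (hb : ∀ z ∈ F, b z ≠ 0) :
    ∃ ε : ℝ, 0 < ε ∧ ∀ z ∈ F, ε * |a z| < |b z| := by
  classical
  induction F using Finset.induction_on with
  | empty => exact ⟨1, one_pos, fun z hz => absurd hz (Finset.notMem_empty z)⟩
  | insert x F hx ih =>
    obtain ⟨ε, hε, h⟩ := ih (fun z hz => hb z (mem_insert_of_mem hz))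
    have hbx : 0 < |b x| := abs_pos.mpr (hb x (mem_insert_self x F))
    have hax : 0 < |a x| + 1 := by positivity
    refine ⟨min ε (|b x| / (|a x| + 1)), lt_min hε (by positivity), ?_⟩
    intro z hz
    rcases mem_insert.mp hz with h1 | h1
    · subst h1
      have h2 : min ε (|b z| / (|a z| + 1)) * |a z| ≤ |b z| / (|a z| + 1) * |a z| :=
        mul_le_mul_of_nonneg_right (min_le_right _ _) (abs_nonneg _)
      have h3 : |b z| / (|a z| + 1) * |a z| < |b z| := by
        rw [div_mul_eq_mul_div, div_lt_iff₀ hax]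
        nlinarith
      linarith
    · have h2 : min ε (|b x| / (|a x| + 1)) * |a z| ≤ ε * |a z| :=
        mul_le_mul_of_nonneg_right (min_le_left _ _) (abs_nonneg _)
      linarith [h z h1]

/-- The gap condition inside a plane: `v` is the normal of the plane, `A` the set of points on it. -/
lemma gap_plane {S : Finset (Fin 3 → ℝ)} {C : ℕ} (hG : GapS S C) {v : Fin 3 → ℝ} (hv : v ≠ 0)
    {c : ℝ} (θ : Fin 3 → ℝ) {x y : Fin 3 → ℝ} (hx : x ∈ S) (hy : y ∈ S) (hxy : x ≠ y)
    (hxc : ip v x = c) (hyc : ip v y = c) (hθ : ip θ x = ip θ y) :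
    (up S (ip v) c + up (S.filter (fun z => ip v z = c)) (ip θ) (ip θ x) + C <
        dn S (ip v) c + dn (S.filter (fun z => ip v z = c)) (ip θ) (ip θ x)) ∨
    (dn S (ip v) c + dn (S.filter (fun z => ip v z = c)) (ip θ) (ip θ x) + C <
        up S (ip v) c + up (S.filter (fun z => ip v z = c)) (ip θ) (ip θ x)) := by
  classical
  set A := S.filter (fun z => ip v z = c) with hA
  have hAS : A ⊆ S := Finset.filter_subset _ _
  obtain ⟨ε, hε, hsm⟩ := exists_small (S \ A) (fun z => ip θ z - ip θ x) (fun z => ip v z - ip v x) (by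
    intro z hz
    obtain ⟨h1, h2⟩ := mem_sdiff.mp hz
    intro h3
    apply h2
    exact mem_filter.mpr ⟨h1, by linarith⟩)
  have hsgn : ∀ z ∈ S, z ∉ A → ip v z - ip v x ≠ 0 ∧
      (0 < ip (v + ε • θ) z - ip (v + ε • θ) x ↔ 0 < ip v z - ip v x) ∧
      (ip (v + ε • θ) z - ip (v + ε • θ) x < 0 ↔ ip v z - ip v x < 0) := by
    intro z hz hzA
    have h1 : ε * |ip θ z - ip θ x| < |ip v z - ip v x| := hsm z (mem_sdiff.mpr ⟨hz, hzA⟩)
    have h2 : ip v z - ip v x ≠ 0 := by
      intro h3
      rw [h3, abs_zero] at h1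
      have := mul_nonneg hε.le (abs_nonneg (ip θ z - ip θ x))
      linarith
    have h3 : ip (v + ε • θ) z - ip (v + ε • θ) x = (ip v z - ip v x) + ε * (ip θ z - ip θ x) := by
      simp only [ip_add, ip_smul]; ring
    have h4 : |ε * (ip θ z - ip θ x)| < |ip v z - ip v x| := by
      rw [abs_mul, abs_of_pos hε]; exact h1
    have h5 := abs_lt.mp h4
    refine ⟨h2, ?_, ?_⟩
    · rw [h3]
      rcases lt_or_gt_of_ne h2 with h6 | h6
      · rw [abs_of_neg h6] at h5
        constructor <;> intro h7 <;> linarith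
      · rw [abs_of_pos h6] at h5
        constructor <;> intro h7 <;> linarith
    · rw [h3]
      rcases lt_or_gt_of_ne h2 with h6 | h6
      · rw [abs_of_neg h6] at h5
        constructor <;> intro h7 <;> linarith
      · rw [abs_of_pos h6] at h5
        constructor <;> intro h7 <;> linarith
  -- a point outside the plane
  obtain ⟨z0, hz0, hz0A⟩ : ∃ z ∈ S, z ∉ A := by
    by_contra hc
    push Not at hc
    have h1 := hG v hv x hx y hy hxy (by rw [hxc, hyc])
    have h2 : up S (ip v) (ip v x) = 0 := by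
      unfold up
      rw [Finset.card_eq_zero, Finset.filter_eq_empty_iff]
      intro z hz h3
      have := (mem_filter.mp (hc z hz)).2
      linarith
    have h3 : dn S (ip v) (ip v x) = 0 := by
      unfold dn
      rw [Finset.card_eq_zero, Finset.filter_eq_empty_iff]
      intro z hz h3
      have := (mem_filter.mp (hc z hz)).2
      linarith
    omega
  have hw : v + ε • θ ≠ 0 := by
    intro h
    obtain ⟨h1, h2, h3⟩ := hsgn z0 hz0 hz0A
    rw [h] at h2 h3
    simp only [ip_zero_left, sub_zero, lt_irrefl, false_iff] at h2 h3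
    exact h1 (by linarith)
  have htie : ip (v + ε • θ) x = ip (v + ε • θ) y := by
    simp only [ip_add, ip_smul, hxc, hyc, hθ]
  have hg := hG _ hw x hx y hy hxy htie
  have hup : up S (ip (v + ε • θ)) (ip (v + ε • θ) x) = up S (ip v) c + up A (ip θ) (ip θ x) := by
    unfold up
    apply split_card hAS
    · intro z hz hzA
      obtain ⟨h1, h2, h3⟩ := hsgn z hz hzA
      rw [← hxc]
      constructor
      · intro h4
        have := h2.mp (by linarith)
        linarith
      · intro h4
        have := h2.mpr (by linarith)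
        linarith
    · intro z hz h4
      have := (mem_filter.mp hz).2
      linarith
    · intro z hz
      have h5 := (mem_filter.mp hz).2
      simp only [ip_add, ip_smul, hxc, h5]
      constructor
      · intro h6
        by_contra h7
        push Not at h7
        have := mul_le_mul_of_nonneg_left h7 hε.le
        linarith
      · intro h6
        have := mul_lt_mul_of_pos_left h6 hε
        linarith
  have hdn : dn S (ip (v + ε • θ)) (ip (v + ε • θ) x) = dn S (ip v) c + dn A (ip θ) (ip θ x) := by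
    unfold dn
    apply split_card hAS
    · intro z hz hzA
      obtain ⟨h1, h2, h3⟩ := hsgn z hz hzA
      rw [← hxc]
      constructor
      · intro h4
        have := h3.mp (by linarith)
        linarith
      · intro h4
        have := h3.mpr (by linarith)
        linarith
    · intro z hz h4
      have := (mem_filter.mp hz).2
      linarith
    · intro z hz
      have h5 := (mem_filter.mp hz).2
      simp only [ip_add, ip_smul, hxc, h5]
      constructor
      · intro h6
        by_contra h7
        push Not at h7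
        have := mul_le_mul_of_nonneg_left h7 hε.le
        linarith
      · intro h6
        have := mul_lt_mul_of_pos_left h6 hε
        linarith
  rw [hup, hdn] at hg
  exact hg

end Pool.Agent.H410.Sector
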