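import Pool.Agent.Q122.DetNS.CaseB

/-!
# At most two generators divide `h`
-/

namespace Q122.DetNS

namespace TwoDiv

variable {n : ℕ} {a : Fin n → ℕ} {h α : ℤ}

theorem h_mem (hn : 3 ≤ n) (ha : IsMinGen a) (hAP : IsAP a h α) : InH a h := by
  have h1 := hAP.dual ha.1 (u := 0) InH.zero (by
    rw [zero_add]; exact hAP.alpha_not hn)
  simpa using h1

/-- divisors of `h` are ends of runs -/
theorem not_add (hAP : IsAP a h α) {u : ℤ} (hu : InH a (h - u)) {r : ℕ} (h1 : 1 ≤ r)
    (h2 : r < n) : ¬ InH a (u + r * α) := by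
  intro hc
  apply hAP.not_mem h1 h2
  have e : h + r * α = (u + r * α) + (h - u) := by ring
  rw [e]
  exact hc.add hu

/-- a generator dividing the sum -/
theorem sub_of_coeff {v : Fin n → ℕ} {i : Fin n} (hi : 1 ≤ v i) :
    InH a (∑ l, (v l : ℤ) * a l - a i) := by
  classical
  refine ⟨v - Pi.single i 1, ?_⟩
  have h1 : ∀ j, ((v - Pi.single i 1 : Fin n → ℕ) j : ℤ) * a j =
      (v j : ℤ) * a j - (if j = i then (a i : ℤ) else 0) := by
    intro j
    by_cases hj : j = i
    · subst hj
      simp only [Pi.sub_apply, Pi.single_eq_same, if_true]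
      push_cast [hi]
      ring
    · simp [hj]
  simp only [h1]
  rw [Finset.sum_sub_distrib]
  simp

/-- the sum of a vector supported in `{i, j}` -/
theorem sum_two {v : Fin n → ℕ} {i j : Fin n} (hij : i ≠ j)
    (hv : ∀ l, l ≠ i → l ≠ j → v l = 0) :
    ∑ l, (v l : ℤ) * a l = v i * a i + v j * a j := by
  classical
  rw [← Finset.sum_subset (Finset.subset_univ ({i, j} : Finset (Fin n)))]
  · rw [Finset.sum_pair hij]
  · intro l _ hl
    simp only [Finset.mem_insert, Finset.mem_singleton, not_or] at hl
    rw [hv l hl.1 hl.2]; simp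

/-- From every generator the free steps lead to a generator dividing `h`. -/
theorem reach (hn : 3 ≤ n) (ha : IsMinGen a) (hAP : IsAP a h α) (i j : Fin n) (hne : i ≠ j)
    (hij : ∀ l, InH a (h - a l) → l = i ∨ l = j) (l : Fin n) :
    ∃ x, (x = i ∨ x = j) ∧ ∃ k : ℕ, k + 2 ≤ n ∧ InH a (a l + k * α - a x) := by
  classical
  have hstep : ∀ m : Fin n, ∃ m' : Fin n, (m ≠ i ∧ m ≠ j) → InH a (a m + α - a m') := by
    intro m
    by_cases hm : m ≠ i ∧ m ≠ j
    · have h1 : ¬ InH a (h - a m) := fun hc => by
        rcases hij m hc with h2 | h2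
        · exact hm.1 h2
        · exact hm.2 h2
      have h2 : InH a (a m + α) := by
        by_contra hc
        exact h1 (hAP.dual ha.1 (InH.gen m) hc)
      have h3 : (a m : ℤ) + α ≠ 0 := by
        have := hAP.1
        positivity
      obtain ⟨m', hm'⟩ := exists_sub h2 h3
      exact ⟨m', fun _ => hm'⟩
    · exact ⟨m, fun hc => absurd hc hm⟩
  choose g hg using hstep
  by_contra hcon
  push Not at hcon
  -- all iterates up to n - 2 avoid i, j
  have key : ∀ q : ℕ, q + 2 ≤ n → (g^[q] l ≠ i ∧ g^[q] l ≠ j) ∧
      ∀ p : ℕ, p ≤ q → InH a (a (g^[p] l) + ((q - p : ℕ) : ℤ) * α - a (g^[q] l)) := by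
    intro q
    induction q with
    | zero =>
      intro _
      refine ⟨⟨?_, ?_⟩, ?_⟩
      · intro hc
        apply hcon i (Or.inl rfl) 0 (by omega)
        have : l = i := by simpa using hc
        subst this
        simpa using InH.zero
      · intro hc
        apply hcon j (Or.inr rfl) 0 (by omega)
        have : l = j := by simpa using hc
        subst this
        simpa using InH.zero
      · intro p hp
        have : p = 0 := by omega
        subst this
        simpa using InH.zero
    | succ q ih =>
      intro hq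
      obtain ⟨h1, h2⟩ := ih (by omega)
      have h3 := hg _ h1
      rw [← Function.iterate_succ_apply' g q l] at h3
      have h4 : ∀ p : ℕ, p ≤ q + 1 →
          InH a (a (g^[p] l) + ((q + 1 - p : ℕ) : ℤ) * α - a (g^[q + 1] l)) := by
        intro p hp
        rcases Nat.lt_or_ge p (q + 1) with hp2 | hp2
        · have h5 := (h2 p (by omega)).add h3
          have e : (a (g^[p] l) : ℤ) + ((q + 1 - p : ℕ) : ℤ) * α - a (g^[q + 1] l) =
              (a (g^[p] l) + ((q - p : ℕ) : ℤ) * α - a (g^[q] l)) +
              (a (g^[q] l) + α - a (g^[q + 1] l)) := by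
            have e2 : ((q + 1 - p : ℕ) : ℤ) = ((q - p : ℕ) : ℤ) + 1 := by
              rw [show q + 1 - p = (q - p) + 1 by omega]; push_cast; ring
            rw [e2]; ring
          rw [e]; exact h5
        · have : p = q + 1 := by omega
          subst this
          simpa using InH.zero
      refine ⟨⟨?_, ?_⟩, h4⟩
      · intro hc
        apply hcon i (Or.inl rfl) (q + 1) (by omega)
        have := h4 0 (by omega)
        rw [hc] at this
        simpa using this
      · intro hc
        apply hcon j (Or.inr rfl) (q + 1) (by omega)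
        have := h4 0 (by omega)
        rw [hc] at this
        simpa using this
  -- pigeonhole
  have hmaps : ∀ q ∈ Finset.range (n - 1), g^[q] l ∈ (Finset.univ \ {i, j} : Finset (Fin n)) := by
    intro q hq
    rw [Finset.mem_range] at hq
    have := (key q (by omega)).1
    simp [this.1, this.2]
  have hcard : (Finset.univ \ {i, j} : Finset (Fin n)).card < (Finset.range (n - 1)).card := by
    rw [Finset.card_sdiff_of_subset (Finset.subset_univ _), Finset.card_pair hne]
    simp
    omega
  obtain ⟨p, hp, q, hq, hpq, hpq2⟩ := Finset.exists_ne_map_eq_of_card_lt_of_maps_to hcard hmaps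
  rw [Finset.mem_range] at hp hq
  have main : ∀ p q : ℕ, p < q → q < n - 1 → g^[p] l = g^[q] l → False := by
    intro p q h1 h2 h3
    have h4 := (key q (by omega)).2 p h1.le
    rw [h3] at h4
    have h5 := not_add hAP (u := 0) (by simpa using h_mem hn ha hAP) (r := q - p) (by omega)
      (by omega)
    apply h5
    have e : (0 : ℤ) + ((q - p : ℕ) : ℤ) * α =
        a (g^[q] l) + ((q - p : ℕ) : ℤ) * α - a (g^[q] l) := by ring
    rw [e]; exact h4
  rcases Nat.lt_or_gt_of_ne hpq with h1 | h1
  · exact main p q h1 hq hpq2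
  · exact main q p h1 hp hpq2.symm

/-- The core contradiction. -/
theorem core (hn : 3 ≤ n) (ha : IsMinGen a) (hAP : IsAP a h α) (i j : Fin n) (hne : i ≠ j)
    (hij : ∀ l, InH a (h - a l) → l = i ∨ l = j) {p q r s : ℕ} (hpr : p < r)
    (h1 : h = p * a i + q * a j) (h2 : h = r * a i + s * a j) : False := by
  classical
  have hai : (0 : ℤ) < a i := by exact_mod_cast (ha.2 i).1
  have haj : (0 : ℤ) < a j := by exact_mod_cast (ha.2 j).1
  -- the next factorization
  have hex : ∃ r : ℕ, p < r ∧ ∃ s : ℕ, h = r * a i + s * a j := ⟨r, hpr, s, h2⟩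
  obtain ⟨hr1, s', hs'⟩ := Nat.find_spec hex
  have hmin := fun m (hm : m < Nat.find hex) => Nat.find_min hex hm
  set r' := Nat.find hex with hr'
  have hsq : s' < q := by
    by_contra hc
    push Not at hc
    have e1 : (p : ℤ) * a i < r' * a i := by
      apply mul_lt_mul_of_pos_right _ hai
      exact_mod_cast hr1
    have e2 : (q : ℤ) * a j ≤ s' * a j := by
      apply mul_le_mul_of_nonneg_right _ haj.le
      exact_mod_cast hc
    linarith
  set f : ℤ := (p + 1) * a i + (s' + 1) * a j with hf
  have hfH : InH a f := by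
    have := (InH.smul (a := a) (p + 1) i).add (InH.smul (a := a) (s' + 1) j)
    push_cast at this
    exact this
  have hfh : ¬ InH a (h - f) := by
    rintro ⟨e, he⟩
    have hsup : ∀ l, l ≠ i → l ≠ j → e l = 0 := by
      intro l hl1 hl2
      by_contra hc
      have h3 := sub_of_coeff (a := a) (v := e) (i := l) (by omega)
      rw [← he] at h3
      have h4 := h3.add hfH
      have e1 : h - f - a l + f = h - a l := by ring
      rw [e1] at h4
      rcases hij l h4 with h5 | h5
      · exact hl1 h5
      · exact hl2 h5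
    rw [sum_two hne hsup] at he
    have hP : h = ((p + 1 + e i : ℕ) : ℤ) * a i + ((s' + 1 + e j : ℕ) : ℤ) * a j := by
      push_cast
      rw [hf] at he
      linear_combination he
    have hle : r' ≤ p + 1 + e i := by
      by_contra hc
      push Not at hc
      exact hmin _ hc ⟨by omega, _, hP⟩
    have e1 : (r' : ℤ) * a i ≤ ((p + 1 + e i : ℕ) : ℤ) * a i := by
      apply mul_le_mul_of_nonneg_right _ hai.le
      exact_mod_cast hle
    have e2 : (s' : ℤ) * a j < ((s' + 1 + e j : ℕ) : ℤ) * a j := by
      apply mul_lt_mul_of_pos_right _ haj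
      exact_mod_cast (by omega : s' < s' + 1 + e j)
    linarith
  have hfα : InH a (f + α) := by
    by_contra hc
    exact hfh (hAP.dual ha.1 hfH hc)
  have hf0 : f + α ≠ 0 := by
    have := hAP.1
    have := hfH.nonneg
    linarith
  obtain ⟨l, hl⟩ := exists_sub hfα hf0
  obtain ⟨x, hx, k, hk, hk2⟩ := reach hn ha hAP i j hne hij l
  have hdiv : InH a (h - (f - a x)) := by
    rcases hx with rfl | rfl
    · have h3 := InH.smul (a := a) (q - s' - 1) j
      have e1 : ((q - s' - 1 : ℕ) : ℤ) = q - s' - 1 := by
        rw [show q - s' - 1 = q - (s' + 1) by omega, Nat.cast_sub (by omega)]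
        push_cast; ring
      rw [e1] at h3
      have e2 : h - (f - a x) = ((q : ℤ) - s' - 1) * a j := by
        rw [hf, h1]; ring
      rw [e2]; exact h3
    · have h3 := InH.smul (a := a) (r' - p - 1) i
      have e1 : ((r' - p - 1 : ℕ) : ℤ) = r' - p - 1 := by
        rw [show r' - p - 1 = r' - (p + 1) by omega, Nat.cast_sub (by omega)]
        push_cast; ring
      rw [e1] at h3
      have e2 : h - (f - a x) = ((r' : ℤ) - p - 1) * a i := by
        rw [hf, hs']; ring
      rw [e2]; exact h3
  have hno := not_add hAP hdiv (r := k + 1) (by omega) (by omega)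
  apply hno
  have e : f - a x + ((k + 1 : ℕ) : ℤ) * α = (f + α - a l) + (a l + k * α - a x) := by
    push_cast; ring
  rw [e]
  exact hl.add hk2

/-- If at most two generators divide `h`, then `h` has exactly one factorization. -/
theorem unique (hn : 3 ≤ n) (ha : IsMinGen a) (hAP : IsAP a h α) (i j : Fin n)
    (hij : ∀ l, InH a (h - a l) → l = i ∨ l = j) :
    ∃! v : Fin n → ℕ, h = ∑ i, (v i : ℤ) * a i := by
  classical
  -- we may assume i ≠ j
  wlog hne : i ≠ j generalizing j
  · push Not at hne
    subst hne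
    obtain ⟨j', hj'⟩ : ∃ j' : Fin n, i ≠ j' := by
      have : Nontrivial (Fin n) := Fin.nontrivial_iff_two_le.mpr (by omega)
      obtain ⟨j', hj'⟩ := exists_ne i
      exact ⟨j', hj'.symm⟩
    exact this j' (fun l hl => Or.inl (by rcases hij l hl with h1 | h1 <;> exact h1)) hj'
  have hsupp : ∀ v : Fin n → ℕ, h = ∑ i, (v i : ℤ) * a i → ∀ l, l ≠ i → l ≠ j → v l = 0 := by
    intro v hv l hl1 hl2
    by_contra hc
    have h3 := sub_of_coeff (a := a) (v := v) (i := l) (by omega)
    rw [← hv] at h3
    rcases hij l h3 with h5 | h5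
    · exact hl1 h5
    · exact hl2 h5
  obtain ⟨v, hv⟩ := h_mem hn ha hAP
  refine ⟨v, hv, ?_⟩
  intro w hw
  have hv2 := hsupp v hv
  have hw2 := hsupp w hw
  have ev := hv
  have ew : h = ∑ i, (w i : ℤ) * a i := hw
  rw [sum_two hne hv2] at ev
  rw [sum_two hne hw2] at ew
  have hi : w i = v i := by
    rcases Nat.lt_trichotomy (w i) (v i) with h1 | h1 | h1
    · exact (core hn ha hAP i j hne hij h1 ew ev).elim
    · exact h1
    · exact (core hn ha hAP i j hne hij h1 ev ew).elim
  have hj : w j = v j := by
    have haj : (a j : ℤ) ≠ 0 := by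
      have := (ha.2 j).1
      positivity
    have e : (w j : ℤ) * a j = v j * a j := by
      rw [hi] at ew
      linarith
    have := mul_right_cancel₀ haj e
    exact_mod_cast this
  funext l
  by_cases h1 : l = i
  · rw [h1, hi]
  by_cases h2 : l = j
  · rw [h2, hj]
  rw [hv2 l h1 h2, hw2 l h1 h2]

end TwoDiv

end Q122.DetNS
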